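import Pool.Agent.Lib.MP_a17b09_nt.OM.Stmts
import Pool.Agent.Lib.MP_a17b09_nt.OM.FinB

/-!
Statements of the modules of the theorem on `Ω(f(t))` modulo even numbers. Each `St...` is a
proposition that is proved in a file of its own.
-/

set_option autoImplicit false

open Filter Topology

namespace Pool.Agent.MP_a17b09_nt.OM

/-- the primes `q ≡ κ mod K` in `(2^e, 2^(e+1)]` -/
def QC (K κ e : ℕ) : Finset ℕ :=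
  (Finset.Ioc (2 ^ e) (2 ^ (e + 1))).filter (fun q => q.Prime ∧ q ≡ κ [MOD K])

theorem mem_QC {K κ e q : ℕ} :
    q ∈ QC K κ e ↔ (2 ^ e < q ∧ q ≤ 2 ^ (e + 1)) ∧ q.Prime ∧ q ≡ κ [MOD K] := by
  unfold QC
  rw [Finset.mem_filter, Finset.mem_Ioc]

/-- `StDecouple` for the primes in a residue class coprime to the modulus -/
def StDecoupleC : Prop := ∀ (M : Mean) (A : Type) [Fintype A] [DecidableEq A] (φ : ℤ → A)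
  (K κ : ℕ), 0 < K → κ.Coprime K → ∀ (D0 : ℕ) (ε : ℝ), 0 < ε → ∀ E0 : ℕ,
    ∃ e : ℕ, E0 ≤ e ∧ ∀ (r : ℕ → ℤ) (D : ℕ → ℕ) (Ψ : ℕ → A → A → ℝ), (∀ q, D q ≤ D0) →
      (∀ q a b, 0 ≤ Ψ q a b ∧ Ψ q a b ≤ 1) →
      ∑ q ∈ QC K κ e, |M.E (fun x => if (q : ℤ) ∣ x - r q then
          (q : ℝ) * Ψ q (φ x) (φ (x + ((D q * q : ℕ) : ℤ))) else 0) -
        M.E (fun x => Ψ q (φ x) (φ (x + ((D q * q : ℕ) : ℤ))))| ≤ ε * ((QC K κ e).card : ℝ)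

/-- `StMinor` for the primes in a residue class coprime to the modulus -/
def StMinorC : Prop := ∀ (H : Type) [NormedAddCommGroup H] [InnerProductSpace ℂ H]
    [CompleteSpace H] (U : H ≃ₗᵢ[ℂ] H) (f : H),
    (∀ t : ℕ, 0 < t → ∀ v : H, (U ^ t) v = v → inner ℂ v f = 0) →
    ∀ K κ : ℕ, 0 < K → κ.Coprime K → ∀ n : ℕ, 0 < n →
    Tendsto (fun e : ℕ => (1 / ((QC K κ e).card : ℝ)) * ‖∑ q ∈ QC K κ e, (U ^ (n * q)) f‖)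
      atTop (𝓝 0)

/-- finitary colouring theorem for even moduli -/
def StCTE : Prop := ∀ (m : ℕ), Even m → 0 < m → ∀ (K0 κ R : ℕ), 0 < K0 → κ.Coprime K0 →
    0 < R → R ∣ K0 → ∀ (y1 : ℕ) (c1 c2 c3 : ZMod m),
    ∃ Y : ℕ, ∀ (χ : ℕ → ZMod m) (r : ℕ → ℕ), ∃ y k : ℕ, y + 2 * k ≤ Y ∧ 0 < k ∧ Squarefree k ∧
      k ≡ κ [MOD K0] ∧
      (∀ p : ℕ, p.Prime → p ∣ k → (p ≡ 1 [MOD K0] ∨ p ≡ κ [MOD K0]) ∧ y ≡ r p [MOD p]) ∧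
      ((y ≡ y1 [MOD R] ∧ χ y + χ (y + k) =
          2 * c1 + 2 * ((ArithmeticFunction.cardFactors k : ℕ) : ZMod m)) ∨
        (y ≡ y1 + κ [MOD R] ∧ χ y + χ (y + k) =
          2 * c2 + 2 * ((ArithmeticFunction.cardFactors k : ℕ) : ZMod m)) ∨
        (y ≡ y1 [MOD R] ∧ χ y + χ (y + 2 * k) =
          2 * c3 + 2 * ((ArithmeticFunction.cardFactors k : ℕ) : ZMod m)))

/-- the residue class used for the large prime factor of `k` -/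
def StKap : Prop := ∀ (a b c : ℤ), 0 < a → IsCoprime a b → b ^ 2 - 4 * a * c ≠ 0 →
    ∃ κ K0 : ℕ, 0 < K0 ∧ κ.Coprime K0 ∧ (2 * a) ∣ (K0 : ℤ) ∧ a ∣ (κ : ℤ) + b ∧
      (∀ p : ℕ, p.Prime → p ≡ κ [MOD K0] → ∃ ρ : ℤ, (p : ℤ) ∣ Gf (b ^ 2 - 4 * a * c) ρ) ∧
      (∀ p : ℕ, p.Prime → p ≡ 1 [MOD K0] → ∃ ρ : ℤ, (p : ℤ) ∣ Gf (b ^ 2 - 4 * a * c) ρ)

/-- the final theorem -/
def StFinalE : Prop := ∀ (a b c : ℤ), 0 < a → IsCoprime a b → ¬ IsSquare (b ^ 2 - 4 * a * c) →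
    ∀ (m : ℕ), 0 < m → ∀ (j : ℕ),
    ∃ C : ℕ, ∀ ε : ℝ, 0 < ε → ε ≤ 1 / 2 → ∃ N₁ : ℕ, ∀ N : ℕ, N₁ ≤ N →
      (N : ℝ) ^ (1 - ε) ≤ (((Finset.Icc 1 N).filter (fun t : ℕ =>
        0 < a * (t : ℤ) ^ 2 + b * t + c ∧
        (ArithmeticFunction.cardFactors (a * (t : ℤ) ^ 2 + b * t + c).natAbs : ℝ) ≤ C / ε ∧
        ((ArithmeticFunction.cardFactors (a * (t : ℤ) ^ 2 + b * t + c).natAbs : ℕ) : ZMod m)
          = ((ArithmeticFunction.cardFactors a.natAbs + 2 * j : ℕ) : ZMod m))).card : ℝ)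

end Pool.Agent.MP_a17b09_nt.OM
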