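import Pool.Agent.Lib.MP_a17b09_nt.OE.Dec2
import Pool.Agent.Lib.MP_a17b09_nt.OM.Form

/-!
A sign function cannot be anticorrelated with its structured part along the three sides of a
triangle of shifts.
-/

set_option autoImplicit false

open Filter Topology

namespace Pool.Agent.MP_a17b09_nt.OM

theorem pw1 (w s g1 g2 : ℝ) (hw : 0 ≤ w) (hs : s ^ 2 = 1) (h1 : |g1| ≤ 1) (h2 : |g2| ≤ 1) :
    w * (g1 - g2) ^ 2 ≤ 8 * w + (4 * (w * s * g1) + 4 * (w * s * g2)) := by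
  have e1 : g1 ^ 2 ≤ 1 := by rw [← sq_abs]; exact pow_le_one₀ (abs_nonneg _) h1
  have e2 : g2 ^ 2 ≤ 1 := by rw [← sq_abs]; exact pow_le_one₀ (abs_nonneg _) h2
  have e3 : (g1 - g2) ^ 2 ≤ 8 + 4 * (s * g1) + 4 * (s * g2) := by
    have h := sq_nonneg (s + g1 + (s + g2))
    have e : (g1 - g2) ^ 2 = 2 * (s + g1) ^ 2 + 2 * (s + g2) ^ 2 - (s + g1 + (s + g2)) ^ 2 := by ring
    have e4 : (s + g1) ^ 2 = s ^ 2 + 2 * (s * g1) + g1 ^ 2 := by ring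
    have e5 : (s + g2) ^ 2 = s ^ 2 + 2 * (s * g2) + g2 ^ 2 := by ring
    rw [e, e4, e5, hs]
    linarith
  calc w * (g1 - g2) ^ 2 ≤ w * (8 + 4 * (s * g1) + 4 * (s * g2)) :=
        mul_le_mul_of_nonneg_left e3 hw
    _ = _ := by ring

theorem pw2 (w s g g1 : ℝ) (hw : 0 ≤ w) (hs : s ^ 2 = 1) (h1 : |g1| ≤ 1) :
    w + 2 * (w * s * g) ≤ 4 * w + (4 * (w * s * g1) + 2 * (w * (g - g1) ^ 2)) := by
  have e1 : g1 ^ 2 ≤ 1 := by rw [← sq_abs]; exact pow_le_one₀ (abs_nonneg _) h1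
  have e3 : 1 + 2 * (s * g) ≤ 4 + 4 * (s * g1) + 2 * (g - g1) ^ 2 := by
    have h := sq_nonneg ((s + g1) - (g - g1))
    have e4 : (s + g1) ^ 2 = s ^ 2 + 2 * (s * g1) + g1 ^ 2 := by ring
    have e5 : (s + g) ^ 2 = s ^ 2 + 2 * (s * g) + g ^ 2 := by ring
    have e6 : ((s + g1) - (g - g1)) ^ 2 = 2 * (s + g1) ^ 2 + 2 * (g - g1) ^ 2 - (s + g) ^ 2 := by ring
    rw [e6, e4, e5, hs] at h
    have := sq_nonneg g
    linarith
  calc w + 2 * (w * s * g) = w * (1 + 2 * (s * g)) := by ring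
    _ ≤ w * (4 + 4 * (s * g1) + 2 * (g - g1) ^ 2) := mul_le_mul_of_nonneg_left e3 hw
    _ = _ := by ring

/-- replacing the structured part by an average -/
theorem rep (M : Mean) (P : HS M →L[ℂ] HS M) {f g s : ℤ → ℝ} {R θ : ℝ} (hR : 0 ≤ R)
    (hf : ∀ x, |f x| ≤ R) (hg : Bdd g) (h : ‖P (HS.ι M s) - HS.ι M g‖ ≤ θ) (k : ℤ) :
    |(inner ℂ (HS.ι M f) (HS.shC M k (P (HS.ι M s)))).re - M.E (fun x => f x * g (x + k))| ≤
      R * θ := by
  have hfb : Bdd f := ⟨R, hf⟩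
  have h1 := inner_shC_ι M hfb hg k
  have h2 : ((inner ℂ (HS.ι M f) (HS.shC M k (P (HS.ι M s)))).re -
      M.E (fun x => f x * g (x + k)) : ℝ) =
      (inner ℂ (HS.ι M f) (HS.shC M k (P (HS.ι M s) - HS.ι M g))).re := by
    rw [map_sub, inner_sub_right, Complex.sub_re, h1, Complex.ofReal_re]
  rw [h2]
  refine (Complex.abs_re_le_norm _).trans ((norm_inner_le_norm _ _).trans ?_)
  rw [HS.shC_norm]
  exact mul_le_mul (HS.norm_ι_le M hR hf) h (norm_nonneg _) hR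

theorem core (M : Mean) (K κ : ℕ) (P : HS M →L[ℂ] HS M) (h1 : ∀ w, (HS.U M ^ K) (P w) = P w)
    (h2 : ∀ w, (HS.U M ^ K) w = w → P w = w) (hPn : ∀ w, ‖P w‖ ≤ ‖w‖)
    (h3 : ∀ u w, inner ℂ (P u) w = inner ℂ u (P w))
    (R : ℝ) (hR : 0 ≤ R) (w1 w2 s : ℤ → ℝ) (hs : ∀ x, s x ^ 2 = 1)
    (hw1 : ∀ x, 0 ≤ w1 x ∧ w1 x ≤ R) (hw2 : ∀ x, 0 ≤ w2 x ∧ w2 x ≤ R)
    (hshift : ∀ x, w2 (x + (κ : ℤ)) = w1 x)
    (hper : ∀ x : ℤ, ∀ i : ℕ, w2 (x + ((K * i : ℕ) : ℤ)) = w2 x)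
    (hE1 : M.E w1 = 1) (hE2 : M.E w2 = 1) (η : ℝ) (hη : η ≤ 1 / 40)
    (a1 : (inner ℂ (HS.ι M (fun x => w1 x * s x)) (HS.shC M (κ : ℤ) (P (HS.ι M s)))).re ≤ -1 + η)
    (a2 : (inner ℂ (HS.ι M (fun x => w2 x * s x)) (HS.shC M (κ : ℤ) (P (HS.ι M s)))).re ≤ -1 + η)
    (a3 : (inner ℂ (HS.ι M (fun x => w1 x * s x)) (HS.shC M (2 * κ : ℤ) (P (HS.ι M s)))).re ≤
      -1 + η) : False := by
  have hs1 : ∀ x, |s x| ≤ 1 := by
    intro x
    rw [← sq_le_one_iff_abs_le_one, hs x]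
  have hsb : Bdd s := ⟨1, hs1⟩
  have hw1b : Bdd w1 := ⟨R, fun x => by rw [abs_of_nonneg (hw1 x).1]; exact (hw1 x).2⟩
  have hw2b : Bdd w2 := ⟨R, fun x => by rw [abs_of_nonneg (hw2 x).1]; exact (hw2 x).2⟩
  have hws1 : ∀ x, |w1 x * s x| ≤ R := by
    intro x
    rw [abs_mul, abs_of_nonneg (hw1 x).1]
    calc w1 x * |s x| ≤ R * 1 := mul_le_mul (hw1 x).2 (hs1 x) (abs_nonneg _) hR
      _ = R := mul_one R
  have hws2 : ∀ x, |w2 x * s x| ≤ R := by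
    intro x
    rw [abs_mul, abs_of_nonneg (hw2 x).1]
    calc w2 x * |s x| ≤ R * 1 := mul_le_mul (hw2 x).2 (hs1 x) (abs_nonneg _) hR
      _ = R := mul_one R
  obtain ⟨θ, hθdef⟩ : ∃ θ : ℝ, θ = 1 / (100 * (R + 1)) := ⟨_, rfl⟩
  have hθ : 0 < θ := by rw [hθdef]; positivity
  have hRθ : (R + 1) * θ = 1 / 100 := by
    rw [hθdef]; field_simp
  have t1 := (avg_approx M K P h1 h2 h3 hsb).eventually_le_const hθ
  have t2 := (avg_approx M K P h1 h2 h3 (hw2b.mul hsb)).eventually_le_const hθ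
  obtain ⟨n, hn1, hn2⟩ := (t1.and t2).exists
  obtain ⟨g, hg⟩ : ∃ g : ℤ → ℝ, g = avgf K n s := ⟨_, rfl⟩
  have hg1 : ∀ x, |g x| ≤ 1 := by
    rw [hg]
    exact avgf_abs K n s 1 zero_le_one hs1
  have hgb : Bdd g := ⟨1, hg1⟩
  have hav : avgf K n (fun x => w2 x * s x) = fun x => w2 x * g x := by
    funext x
    rw [avgf_mul K n w2 s hper, hg]
  rw [hav] at hn2
  rw [← hg] at hn1
  -- the four correlations
  have b1 := (abs_le.1 (rep M P hR hws1 hgb hn1 (κ : ℤ))).1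
  have b2 := (abs_le.1 (rep M P hR hws2 hgb hn1 (κ : ℤ))).1
  have b3 := (abs_le.1 (rep M P hR hws1 hgb hn1 (2 * κ : ℤ))).1
  have b4 := (abs_le.1 (rep M P hR hws2 hgb hn1 0)).2
  simp only [add_zero] at b4
  have c4 : -((R + 1) * θ) ≤ (inner ℂ (HS.ι M (fun x => w2 x * s x))
      (HS.shC M 0 (P (HS.ι M s)))).re := by
    rw [HS.shC_zero]
    have hPP : P (P (HS.ι M s)) = P (HS.ι M s) := h2 _ (h1 _)
    rw [← hPP, ← h3]
    have hin : 0 ≤ (inner ℂ (HS.ι M (fun x => w2 x * g x)) (HS.ι M g)).re := by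
      rw [HS.inner_ι M (hw2b.mul hgb) hgb, Complex.ofReal_re]
      apply M.nonneg _ ((hw2b.mul hgb).mul hgb)
      intro x
      have := mul_nonneg (hw2 x).1 (mul_self_nonneg (g x))
      linarith
    have hdiff : inner ℂ (P (HS.ι M (fun x => w2 x * s x))) (P (HS.ι M s)) =
        inner ℂ (HS.ι M (fun x => w2 x * g x)) (HS.ι M g) +
        inner ℂ (P (HS.ι M (fun x => w2 x * s x)) - HS.ι M (fun x => w2 x * g x)) (P (HS.ι M s)) +
        inner ℂ (HS.ι M (fun x => w2 x * g x)) (P (HS.ι M s) - HS.ι M g) := by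
      rw [inner_sub_left, inner_sub_right]; ring
    rw [hdiff, Complex.add_re, Complex.add_re]
    have e1 := (abs_le.1 ((Complex.abs_re_le_norm (inner ℂ (P (HS.ι M (fun x => w2 x * s x)) -
      HS.ι M (fun x => w2 x * g x)) (P (HS.ι M s)))).trans (norm_inner_le_norm _ _))).1
    have e2 := (abs_le.1 ((Complex.abs_re_le_norm (inner ℂ (HS.ι M (fun x => w2 x * g x))
      (P (HS.ι M s) - HS.ι M g))).trans (norm_inner_le_norm _ _))).1
    have e3 : ‖P (HS.ι M (fun x => w2 x * s x)) - HS.ι M (fun x => w2 x * g x)‖ *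
        ‖P (HS.ι M s)‖ ≤ θ * 1 :=
      mul_le_mul hn2 ((hPn _).trans (HS.norm_ι_le M zero_le_one hs1)) (norm_nonneg _) hθ.le
    have hwg : ∀ x, |w2 x * g x| ≤ R := by
      intro x
      rw [abs_mul, abs_of_nonneg (hw2 x).1]
      calc w2 x * |g x| ≤ R * 1 := mul_le_mul (hw2 x).2 (hg1 x) (abs_nonneg _) hR
        _ = R := mul_one R
    have e4 : ‖HS.ι M (fun x => w2 x * g x)‖ * ‖P (HS.ι M s) - HS.ι M g‖ ≤ R * θ :=
      mul_le_mul (HS.norm_ι_le M hR hwg) hn1 (norm_nonneg _) hR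
    linarith
  -- means
  have hb : ∀ {w : ℤ → ℝ}, Bdd w → ∀ k : ℤ, Bdd (fun x => w x * s x * g (x + k)) :=
    fun hw k => (hw.mul hsb).mul (hgb.comp_add k)
  have hFb : ∀ {w : ℤ → ℝ}, Bdd w → ∀ k l : ℤ, Bdd (fun x => w x * (g (x + k) - g (x + l)) ^ 2) := by
    intro w hw k l
    have := hw.mul (((hgb.comp_add k).sub (hgb.comp_add l)).mul ((hgb.comp_add k).sub (hgb.comp_add l)))
    simpa [sq] using this
  have d1 : M.E (fun x => w1 x * (g (x + κ) - g (x + 2 * κ)) ^ 2) ≤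
      8 + (4 * M.E (fun x => w1 x * s x * g (x + κ)) +
        4 * M.E (fun x => w1 x * s x * g (x + 2 * κ))) := by
    have e := M.mono (hFb hw1b κ (2 * κ)) ((hw1b.smul 8).add (((hb hw1b κ).smul 4).add
      ((hb hw1b (2 * κ)).smul 4))) (fun x => pw1 _ _ _ _ (hw1 x).1 (hs x) (hg1 _) (hg1 _))
    rw [M.add _ _ (hw1b.smul 8) (((hb hw1b κ).smul 4).add ((hb hw1b (2 * κ)).smul 4)),
      M.smul _ _ hw1b, M.add _ _ ((hb hw1b κ).smul 4) ((hb hw1b (2 * κ)).smul 4),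
      M.smul _ _ (hb hw1b κ), M.smul _ _ (hb hw1b (2 * κ)), hE1] at e
    linarith
  have d2 : M.E (fun x => w2 x * (g x - g (x + κ)) ^ 2) =
      M.E (fun x => w1 x * (g (x + κ) - g (x + 2 * κ)) ^ 2) := by
    have hFb0 : Bdd (fun x => w2 x * (g x - g (x + κ)) ^ 2) := by
      have := hFb hw2b 0 κ
      simpa using this
    rw [← M.shift _ hFb0 κ]
    congr 1
    funext x
    rw [hshift, show x + (κ : ℤ) + κ = x + 2 * κ by ring]
  have d3 : 1 + 2 * M.E (fun x => w2 x * s x * g x) ≤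
      4 + (4 * M.E (fun x => w2 x * s x * g (x + κ)) +
        2 * M.E (fun x => w2 x * (g x - g (x + κ)) ^ 2)) := by
    have hb0 : Bdd (fun x => w2 x * s x * g x) := by
      have := hb hw2b 0
      simpa using this
    have hFb0 : Bdd (fun x => w2 x * (g x - g (x + κ)) ^ 2) := by
      have := hFb hw2b 0 κ
      simpa using this
    have e := M.mono (hw2b.add (hb0.smul 2)) ((hw2b.smul 4).add (((hb hw2b κ).smul 4).add
      (hFb0.smul 2))) (fun x => pw2 _ _ _ _ (hw2 x).1 (hs x) (hg1 _))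
    rw [M.add _ _ hw2b (hb0.smul 2), M.smul _ _ hb0,
      M.add _ _ (hw2b.smul 4) (((hb hw2b κ).smul 4).add (hFb0.smul 2)),
      M.smul _ _ hw2b, M.add _ _ ((hb hw2b κ).smul 4) (hFb0.smul 2),
      M.smul _ _ (hb hw2b κ), M.smul _ _ hFb0, hE2] at e
    linarith
  have hRθ' : R * θ ≤ 1 / 100 := by linarith
  linarith

end Pool.Agent.MP_a17b09_nt.OM
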