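import Pool.Agent.Lib.MP_a17b09_nt.OM.CTinf

/-!
The sign character of an even modulus.
-/

set_option autoImplicit false

namespace Pool.Agent.MP_a17b09_nt.OM

/-- the sign character -/
noncomputable def eps {m : ℕ} (a : ZMod m) : ℝ := (-1) ^ a.val

theorem eps_sq {m : ℕ} (a : ZMod m) : eps a ^ 2 = 1 := by
  unfold eps
  rw [← pow_mul, mul_comm, pow_mul]
  norm_num

theorem eps_add {m : ℕ} (hm : Even m) [NeZero m] (a b : ZMod m) :
    eps (a + b) = eps a * eps b := by
  unfold eps
  rw [ZMod.val_add, ← pow_add]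
  have h1 : (a.val + b.val) % m + m * ((a.val + b.val) / m) = a.val + b.val := Nat.mod_add_div _ _
  conv_rhs => rw [← h1]
  rw [pow_add]
  have h2 : ((-1 : ℝ)) ^ (m * ((a.val + b.val) / m)) = 1 := by
    rw [pow_mul, hm.neg_one_pow, one_pow]
  rw [h2, mul_one]

theorem eps_two_mul {m : ℕ} (hm : Even m) [NeZero m] (a : ZMod m) : eps (2 * a) = 1 := by
  rw [two_mul, eps_add hm, ← sq, eps_sq]

theorem eps_natCast {m : ℕ} (j : ℕ) (hj : j < m) : eps (j : ZMod m) = (-1) ^ j := by
  unfold eps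
  rw [ZMod.val_natCast, Nat.mod_eq_of_lt hj]

theorem sum_par (n : ℕ) (h : ℕ → ℝ) :
    ∑ j ∈ Finset.range (2 * n), (1 + (-1) ^ j) * h j = 2 * ∑ j ∈ Finset.range n, h (2 * j) := by
  induction n with
  | zero => simp
  | succ n ih =>
    rw [show 2 * (n + 1) = 2 * n + 1 + 1 by ring, Finset.sum_range_succ, Finset.sum_range_succ, ih,
      Finset.sum_range_succ, pow_succ, pow_mul]
    norm_num
    ring

theorem eps_sum0 {m : ℕ} (hm : Even m) [NeZero m] (g : ZMod m → ℝ) :
    ∑ j ∈ Finset.range m, g (2 * ((j : ZMod m) + 1)) = ∑ z, g z + ∑ z, eps z * g z := by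
  obtain ⟨n, hn⟩ := hm
  have hn' : m = 2 * n := by omega
  rw [sum_range_zmod m (fun z => g (2 * (z + 1)))]
  have h1 : ∑ z : ZMod m, g (2 * (z + 1)) = ∑ z : ZMod m, g (2 * z) :=
    Equiv.sum_comp (Equiv.addRight (1 : ZMod m)) (fun z => g (2 * z))
  rw [h1, ← Finset.sum_add_distrib, ← sum_range_zmod m (fun z => g (2 * z)),
    ← sum_range_zmod m (fun z => g z + eps z * g z)]
  have h2 : ∀ j ∈ Finset.range m, g (j : ZMod m) + eps (j : ZMod m) * g (j : ZMod m) =
      (1 + (-1) ^ j) * g (j : ZMod m) := by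
    intro j hj
    rw [eps_natCast j (Finset.mem_range.1 hj)]
    ring
  rw [Finset.sum_congr rfl h2]
  have e0 : Finset.range m = Finset.range (2 * n) := congrArg Finset.range hn'
  rw [e0, sum_par n (fun j => g (j : ZMod m))]
  have h3 : ∑ j ∈ Finset.range (2 * n), g (2 * (j : ZMod m)) =
      ∑ j ∈ Finset.range n, g (2 * (j : ZMod m)) + ∑ j ∈ Finset.range n, g (2 * (j : ZMod m)) := by
    rw [two_mul n, Finset.sum_range_add]
    congr 1
    apply Finset.sum_congr rfl
    intro j _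
    congr 1
    have h4 : ((2 * n : ℕ) : ZMod m) = 0 := by rw [← hn']; exact ZMod.natCast_self m
    push_cast at h4 ⊢
    linear_combination h4
  rw [h3, ← two_mul]
  congr 1
  apply Finset.sum_congr rfl
  intro j _
  push_cast
  rfl

theorem eps_sum {m : ℕ} (hm : Even m) [NeZero m] (t : ZMod m) (f : ZMod m → ℝ) :
    ∑ j ∈ Finset.range m, f (t + 2 * ((j : ZMod m) + 1)) =
      ∑ z, f z + eps t * ∑ z, eps z * f z := by
  have h := eps_sum0 hm (fun z => f (t + z))
  refine h.trans ?_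
  congr 1
  · exact Equiv.sum_comp (Equiv.addLeft t) f
  · have h3 := Equiv.sum_comp (Equiv.addLeft t) (fun z => eps z * f z)
    rw [← h3, Finset.mul_sum]
    apply Finset.sum_congr rfl
    intro z _
    have h2 := eps_sq t
    rw [Equiv.coe_addLeft, eps_add hm]
    linear_combination (-(eps z * f (t + z))) * h2

end Pool.Agent.MP_a17b09_nt.OM
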