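import Pool.Agent.Lib.MP_a17b09_nt.OE.Small
import Pool.Agent.Lib.MP_a17b09_nt.OE.Core
import Pool.Agent.Lib.MP_a17b09_nt.OE.Eps
import Pool.Agent.Lib.MP_a17b09_nt.OM.Compact

/-!
The colouring theorem for even moduli.
-/

set_option autoImplicit false

open Filter Topology

namespace Pool.Agent.MP_a17b09_nt.OM

theorem fun_col {m : ℕ} [NeZero m] (χ : ℤ → ZMod m) (β : ZMod m → ℝ) :
    (fun x => β (χ x)) = fun x => ∑ b, β b * col χ b x := by
  funext x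
  unfold col
  simp

theorem bil_sum (M : Mean) {m : ℕ} [NeZero m] (χ : ℤ → ZMod m) (R : ℕ) (y0 : ℤ)
    (L : HS M →L[ℂ] HS M) (α β : ZMod m → ℝ) :
    ∑ a, α a * ∑ b, β b * (inner ℂ (HS.ι M (fun x => wt R y0 x * col χ a x))
        (L (HS.ι M (col χ b)))).re =
      (inner ℂ (HS.ι M (fun x => wt R y0 x * α (χ x))) (L (HS.ι M (fun x => β (χ x))))).re := by
  have hcolb : ∀ a : ZMod m, Bdd (col χ a) := fun a => ⟨1, col_abs χ a⟩
  have hwb : Bdd (wt R y0) := ⟨R, wt_abs R y0⟩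
  have h1 : HS.ι M (fun x => β (χ x)) = ∑ b, (β b : ℂ) • HS.ι M (col χ b) := by
    rw [fun_col χ β, HS.ι_sum M _ _ fun b _ => (hcolb b).smul _]
    exact Finset.sum_congr rfl fun b _ => HS.ι_smul M _ (hcolb b)
  have h2 : HS.ι M (fun x => wt R y0 x * α (χ x)) =
      ∑ a, (α a : ℂ) • HS.ι M (fun x => wt R y0 x * col χ a x) := by
    have e : (fun x => wt R y0 x * α (χ x)) =
        fun x => ∑ a, α a * (wt R y0 x * col χ a x) := by
      funext x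
      have := congrFun (fun_col χ α) x
      rw [this, Finset.mul_sum]
      exact Finset.sum_congr rfl fun a _ => by ring
    rw [e, HS.ι_sum M _ _ fun a _ => (hwb.mul (hcolb a)).smul _]
    exact Finset.sum_congr rfl fun a _ => HS.ι_smul M _ (hwb.mul (hcolb a))
  rw [h1, h2, map_sum, sum_inner, Complex.re_sum]
  apply Finset.sum_congr rfl
  intro a _
  rw [inner_sum, Complex.re_sum, Finset.mul_sum]
  apply Finset.sum_congr rfl
  intro b _
  rw [map_smul, inner_smul_left, inner_smul_right, Complex.conj_ofReal, Complex.re_ofReal_mul,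
    Complex.re_ofReal_mul]

theorem corr_le (M : Mean) {m : ℕ} (hm : Even m) [NeZero m] (χ : ℤ → ZMod m) (R : ℕ) (hR : 0 < R)
    (y0 : ℤ) (K : ℕ) (P : HS M →L[ℂ] HS M) (hPid : ∀ w, (HS.U M ^ K) w = w → P w = w) (n : ℤ)
    (c : ZMod m) (δ : ℝ)
    (h : ∀ j ∈ Finset.range m, ∀ a : ZMod m,
      (inner ℂ (HS.ι M (fun x => wt R y0 x * col χ a x)) (HS.shC M n
        (P (HS.ι M (col χ (2 * c + 2 * ((j : ZMod m) + 1) - a)))))).re ≤ 4 * δ) :
    (inner ℂ (HS.ι M (fun x => wt R y0 x * eps (χ x))) (HS.shC M n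
      (P (HS.ι M (fun x => eps (χ x)))))).re ≤ -1 + 4 * (m : ℝ) ^ 2 * δ := by
  set L : HS M →L[ℂ] HS M := (HS.shC M n).comp P with hL
  have hLv : ∀ v, L v = HS.shC M n (P v) := fun v => rfl
  have hsum : ∑ a : ZMod m, ∑ j ∈ Finset.range m,
      (inner ℂ (HS.ι M (fun x => wt R y0 x * col χ a x))
        (L (HS.ι M (col χ (2 * c + 2 * ((j : ZMod m) + 1) - a))))).re ≤ 4 * (m : ℝ) ^ 2 * δ := by
    calc _ ≤ ∑ a : ZMod m, ∑ j ∈ Finset.range m, 4 * δ :=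
          Finset.sum_le_sum fun a _ => Finset.sum_le_sum fun j hj => h j hj a
      _ = 4 * (m : ℝ) ^ 2 * δ := by
          rw [Finset.sum_const, Finset.sum_const, Finset.card_univ, ZMod.card, Finset.card_range]
          simp only [nsmul_eq_mul]
          ring
  have h1 : ∀ a : ZMod m, ∑ j ∈ Finset.range m,
      (inner ℂ (HS.ι M (fun x => wt R y0 x * col χ a x))
        (L (HS.ι M (col χ (2 * c + 2 * ((j : ZMod m) + 1) - a))))).re =
      1 * ∑ b, 1 * (inner ℂ (HS.ι M (fun x => wt R y0 x * col χ a x))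
        (L (HS.ι M (col χ b)))).re +
      eps a * ∑ b, eps b * (inner ℂ (HS.ι M (fun x => wt R y0 x * col χ a x))
        (L (HS.ι M (col χ b)))).re := by
    intro a
    have h2 := eps_sum hm (2 * c - a) (fun b => (inner ℂ (HS.ι M (fun x => wt R y0 x * col χ a x))
        (L (HS.ι M (col χ b)))).re)
    have h3 : eps (2 * c - a) = eps a := by
      have e1 := eps_add hm (2 * c - a) a
      rw [sub_add_cancel, eps_two_mul hm] at e1
      have e2 := eps_sq a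
      linear_combination (-(eps a)) * e1 + (-(eps (2 * c - a))) * e2
    rw [h3] at h2
    simp only [one_mul]
    rw [← h2]
    apply Finset.sum_congr rfl
    intro j _
    rw [show 2 * c + 2 * ((j : ZMod m) + 1) - a = 2 * c - a + 2 * ((j : ZMod m) + 1) by ring]
  rw [Finset.sum_congr rfl fun a _ => h1 a, Finset.sum_add_distrib] at hsum
  have h4 := bil_sum M χ R y0 L (fun _ => 1) (fun _ => 1)
  have h5 := bil_sum M χ R y0 L (fun a => eps a) (fun a => eps a)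
  rw [h4, h5] at hsum
  have hone : ∀ k : ℤ, HS.shC M k (HS.ι M (fun _ => 1)) = HS.ι M (fun _ => 1) := fun k =>
    HS.shC_ι M k (Bdd.const 1)
  have h6 : (inner ℂ (HS.ι M (fun x => wt R y0 x * 1)) (L (HS.ι M (fun _ => 1)))).re = 1 := by
    have hwb : Bdd (wt R y0) := ⟨R, wt_abs R y0⟩
    rw [hLv, hPid _ (by rw [HS.U_pow]; exact hone _), hone]
    simp only [mul_one]
    rw [HS.inner_ι M hwb (Bdd.const 1), Complex.ofReal_re]
    simp only [mul_one]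
    exact M.res R hR y0
  rw [h6] at hsum
  rw [← hLv]
  linarith

theorem wt_nonneg (R : ℕ) (y0 x : ℤ) : 0 ≤ wt R y0 x ∧ wt R y0 x ≤ R := by
  unfold wt
  split_ifs
  · exact ⟨Nat.cast_nonneg _, le_rfl⟩
  · exact ⟨le_rfl, Nat.cast_nonneg _⟩

theorem ct_inf_even (hD : StDecoupleC) (hMi : StMinorC) (m : ℕ) (hm : Even m) (hm0 : 0 < m)
    (K0 κ R : ℕ) (hK0 : 0 < K0) (hκ : κ.Coprime K0) (hR : 0 < R) (hRK : R ∣ K0) (y1 : ℤ)
    (c1 c2 c3 : ZMod m) (χ : ℤ → ZMod m) (r : ℕ → ℤ) (X0 : ℤ) :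
    ∃ (y : ℤ) (k : ℕ), X0 ≤ y ∧ 0 < k ∧ Squarefree k ∧ k ≡ κ [MOD K0] ∧
      (∀ p : ℕ, p.Prime → p ∣ k → (p ≡ 1 [MOD K0] ∨ p ≡ κ [MOD K0]) ∧ (p : ℤ) ∣ y - r p) ∧
      (((R : ℤ) ∣ y - y1 ∧ χ y + χ (y + ((1 * k : ℕ) : ℤ)) =
          2 * c1 + 2 * ((ArithmeticFunction.cardFactors k : ℕ) : ZMod m)) ∨
        ((R : ℤ) ∣ y - (y1 + κ) ∧ χ y + χ (y + ((1 * k : ℕ) : ℤ)) =
          2 * c2 + 2 * ((ArithmeticFunction.cardFactors k : ℕ) : ZMod m)) ∨
        ((R : ℤ) ∣ y - y1 ∧ χ y + χ (y + ((2 * k : ℕ) : ℤ)) =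
          2 * c3 + 2 * ((ArithmeticFunction.cardFactors k : ℕ) : ZMod m))) := by
  by_contra hno
  push Not at hno
  obtain ⟨M⟩ := exists_mean
  have : NeZero m := ⟨hm0.ne'⟩
  have hmR : (0 : ℝ) < m := by exact_mod_cast hm0
  have hRR : (0 : ℝ) < R := by exact_mod_cast hR
  obtain ⟨δ, hδ⟩ : ∃ δ : ℝ, δ = 1 / (160 * (m : ℝ) ^ 2) := ⟨_, rfl⟩
  have hδ0 : 0 < δ := by rw [hδ]; positivity
  obtain ⟨K, hK, hK0K, Pj, hPfix, hPid, hPn, hPs, hdec⟩ := decomp2 (HS.U M) K0 hK0 (δ / (2 * R))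
    (by positivity) (fun a : ZMod m => HS.ι M (col χ a))
  choose w2 w3 hdec1 hdec2 hdec3 using hdec
  obtain ⟨κ', hκ'K, hκ'p, hκ'⟩ := Nat.forall_exists_prime_gt_and_modEq K hK0.ne' hκ
  have hκ'c : κ'.Coprime K := by
    rw [hκ'p.coprime_iff_not_dvd]
    intro hd
    exact absurd (Nat.le_of_dvd hK hd) (by omega)
  have hκκ : (R : ℤ) ∣ (κ' : ℤ) - κ := by
    have h1 := Nat.modEq_iff_dvd.1 (hκ'.of_dvd hRK).symm
    exact h1
  have hRK' : R ∣ K := hRK.trans hK0K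
  have s1 := main_small hD hMi m hm0 K0 κ' R 1 hR one_pos y1 (2 * c1) χ r X0 M K hK hK0K hκ'c δ hδ0
    Pj hPfix hPn w2 w3 hdec1 hdec2 hdec3 (by
      intro y k hy hk hsf hkκ hp hRy
      exact (hno y k hy hk hsf (hkκ.trans hκ') (fun p hpp hpk =>
        ⟨(hp p hpp hpk).1.imp id (fun h => h.trans hκ'), (hp p hpp hpk).2⟩)).1 hRy)
  have s2 := main_small hD hMi m hm0 K0 κ' R 1 hR one_pos (y1 + κ') (2 * c2) χ r X0 M K hK hK0K
    hκ'c δ hδ0 Pj hPfix hPn w2 w3 hdec1 hdec2 hdec3 (by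
      intro y k hy hk hsf hkκ hp hRy
      apply (hno y k hy hk hsf (hkκ.trans hκ') (fun p hpp hpk =>
        ⟨(hp p hpp hpk).1.imp id (fun h => h.trans hκ'), (hp p hpp hpk).2⟩)).2.1
      have e : y - (y1 + κ) = (y - (y1 + κ')) + (κ' - κ) := by ring
      rw [e]
      exact dvd_add hRy hκκ)
  have s3 := main_small hD hMi m hm0 K0 κ' R 2 hR two_pos y1 (2 * c3) χ r X0 M K hK hK0K hκ'c δ hδ0
    Pj hPfix hPn w2 w3 hdec1 hdec2 hdec3 (by
      intro y k hy hk hsf hkκ hp hRy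
      exact (hno y k hy hk hsf (hkκ.trans hκ') (fun p hpp hpk =>
        ⟨(hp p hpp hpk).1.imp id (fun h => h.trans hκ'), (hp p hpp hpk).2⟩)).2.2 hRy)
  have a1 := corr_le M hm χ R hR y1 K Pj hPid _ c1 δ s1
  have a2 := corr_le M hm χ R hR (y1 + κ') K Pj hPid _ c2 δ s2
  have a3 := corr_le M hm χ R hR y1 K Pj hPid _ c3 δ s3
  have hη : 4 * (m : ℝ) ^ 2 * δ = 1 / 40 := by
    rw [hδ]; field_simp; norm_num
  have hres : ∀ y0 : ℤ, M.E (wt R y0) = 1 := fun y0 => M.res R hR y0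
  have e1 : ((1 * κ' : ℕ) : ℤ) = (κ' : ℤ) := by rw [one_mul]
  have e2 : ((2 * κ' : ℕ) : ℤ) = 2 * (κ' : ℤ) := by push_cast; ring
  rw [e1] at a1 a2
  rw [e2] at a3
  refine core M K κ' Pj hPfix hPid hPn hPs R hRR.le (wt R y1) (wt R (y1 + κ'))
    (fun x => eps (χ x)) (fun x => eps_sq (χ x)) (fun x => wt_nonneg R y1 x)
    (fun x => wt_nonneg R (y1 + κ') x) ?_ ?_ (hres _) (hres _) (4 * (m : ℝ) ^ 2 * δ) hη.le a1 a2 a3
  · intro x
    unfold wt
    rw [show x + (κ' : ℤ) - (y1 + κ') = x - y1 by ring]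
  · intro x i
    unfold wt
    have h1 : (R : ℤ) ∣ x + ((K * i : ℕ) : ℤ) - (y1 + κ') ↔ (R : ℤ) ∣ x - (y1 + κ') := by
      have h2 : (R : ℤ) ∣ ((K * i : ℕ) : ℤ) := Int.natCast_dvd_natCast.2 (hRK'.mul_right i)
      have e : x + ((K * i : ℕ) : ℤ) - (y1 + κ') = (x - (y1 + κ')) + ((K * i : ℕ) : ℤ) := by ring
      rw [e]
      exact dvd_add_left h2
    simp only [h1]

theorem ct_fin_even (hD : StDecoupleC) (hMi : StMinorC) : StCTE := by
  intro m hm hm0 K0 κ R hK0 hκ hR hRK y1 c1 c2 c3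
  by_contra hno
  push Not at hno
  choose χ r h using hno
  have : NeZero m := ⟨hm0.ne'⟩
  set U : Ultrafilter ℕ := hyperfilter ℕ with hU
  have hχ : ∀ y : ℕ, ∃ a, ∀ᶠ Y in (U : Filter ℕ), χ Y y = a := fun y =>
    ultra_const U (fun Y => χ Y y)
  choose χ' hχ' using hχ
  have hr : ∀ p : ℕ, ∃ a, ∀ᶠ Y in (U : Filter ℕ), fres p (r Y p) = a := fun p =>
    ultra_const U (fun Y => fres p (r Y p))
  choose r' hr' using hr
  obtain ⟨y, k, hy, hk, hsf, hkκ, hp, hcase⟩ := ct_inf_even hD hMi m hm hm0 K0 κ R hK0 hκ hR hRK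
    (y1 : ℤ) c1 c2 c3 (fun x => χ' x.toNat) (fun p => (((r' p : Fin (p + 1)) : ℕ) : ℤ)) 0
  obtain ⟨y', rfl⟩ := Int.eq_ofNat_of_zero_le hy
  have e1 : (((y' : ℕ) : ℤ)).toNat = y' := Int.toNat_natCast y'
  have e2 : ((y' : ℤ) + ((1 * k : ℕ) : ℤ)).toNat = y' + k := by
    rw [← Nat.cast_add, one_mul]; exact Int.toNat_natCast _
  have e3 : ((y' : ℤ) + ((2 * k : ℕ) : ℤ)).toNat = y' + 2 * k := by
    rw [← Nat.cast_add]; exact Int.toNat_natCast _
  simp only [e1, e2, e3] at hcase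
  have hev1 : ∀ᶠ Y in (U : Filter ℕ), y' + 2 * k ≤ Y :=
    (Nat.hyperfilter_le_atTop) (eventually_ge_atTop _)
  have hev2 : ∀ᶠ Y in (U : Filter ℕ), ∀ p ∈ k.primeFactors, fres p (r Y p) = r' p := by
    rw [Filter.eventually_all_finset]
    intro p _
    exact hr' p
  obtain ⟨Y, hY1, hY2, hY3, hY4, hY5⟩ := (hev1.and (hev2.and ((hχ' y').and
    ((hχ' (y' + k)).and (hχ' (y' + 2 * k)))))).exists
  rw [← hY3, ← hY4, ← hY5] at hcase
  have h0 := h Y y' k hY1 hk hsf hkκ (by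
    intro p hpp hpk
    obtain ⟨h1, h2⟩ := hp p hpp hpk
    refine ⟨h1, ?_⟩
    have h3 := hY2 p (Nat.mem_primeFactors.2 ⟨hpp, hpk, hk.ne'⟩)
    have h4 : (((r' p : Fin (p + 1)) : ℕ)) = r Y p % p := by
      rw [← h3]; exact fres_eq hpp.pos
    rw [h4] at h2
    have h5 : r Y p % p ≡ y' [MOD p] := by
      rw [Nat.modEq_iff_dvd]
      exact h2
    exact (h5.symm.trans (Nat.mod_modEq _ _)))
  have hconv : ∀ z : ℕ, (R : ℤ) ∣ (y' : ℤ) - (z : ℤ) → y' ≡ z [MOD R] := by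
    intro z hz
    have h5 : z ≡ y' [MOD R] := by
      rw [Nat.modEq_iff_dvd]
      exact hz
    exact h5.symm
  rcases hcase with ⟨g1, g2⟩ | ⟨g1, g2⟩ | ⟨g1, g2⟩
  · exact h0.1 (hconv y1 g1) g2
  · exact h0.2.1 (hconv (y1 + κ) (by push_cast; exact g1)) g2
  · exact h0.2.2 (hconv y1 g1) g2

end Pool.Agent.MP_a17b09_nt.OM
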