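import Pool.Agent.Lib.MP_a17b09_nt.OE.Stmts2
import Pool.Agent.Lib.MP_a17b09_nt.OM.Decouple

/-!
# Decoupling of a residue class and a window at a good scale, primes in a residue class
-/

set_option autoImplicit false

open Filter Topology Finset

namespace Pool.Agent.MP_a17b09_nt.OM

namespace DecC

open Dec (hh hh_nonneg hh_step hh_anti harmonic_contra)

/-- Chebyshev -/
theorem sum_log_le (K κ e : ℕ) : ∑ q ∈ QC K κ e, Real.log q ≤ 3 * 2 ^ e := by
  have h1 : ∏ q ∈ QC K κ e, q ≤ primorial (2 ^ (e + 1)) := by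
    unfold primorial
    apply Finset.prod_le_prod_of_subset_of_one_le'
    · intro q hq
      rw [mem_QC] at hq
      rw [mem_filter, mem_range]
      exact ⟨Nat.lt_succ_of_le hq.1.2, hq.2.1⟩
    · intro q hq _
      rw [mem_filter] at hq
      exact hq.2.one_lt.le
  have h2 := h1.trans (primorial_le_four_pow _)
  have h3 : ∑ q ∈ QC K κ e, Real.log q = Real.log ((∏ q ∈ QC K κ e, q : ℕ) : ℝ) := by
    push_cast
    rw [Real.log_prod]
    intro q hq
    rw [mem_QC] at hq
    exact_mod_cast hq.2.1.ne_zero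
  rw [h3]
  have h4 : (0 : ℝ) < ((∏ q ∈ QC K κ e, q : ℕ) : ℝ) := by
    have : 0 < ∏ q ∈ QC K κ e, q := Finset.prod_pos fun q hq => by
      rw [mem_QC] at hq
      exact hq.2.1.pos
    exact_mod_cast this
  have h5 : ((∏ q ∈ QC K κ e, q : ℕ) : ℝ) ≤ 4 ^ (2 ^ (e + 1)) := by exact_mod_cast h2
  have h6 := Real.log_le_log h4 h5
  refine h6.trans ?_
  rw [Real.log_pow, show (4 : ℝ) = 2 ^ 2 by norm_num, Real.log_pow]
  have h7 := Real.log_two_lt_d9
  have h8 : (0 : ℝ) < 2 ^ e := by positivity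
  push_cast
  rw [pow_succ]
  nlinarith

theorem card_QC (K κ e : ℕ) : ((QC K κ e).card : ℝ) =
    (((range (2 ^ (e + 1) + 1)).filter (fun p => p.Prime ∧ p ≡ κ [MOD K])).card : ℝ) -
    (((range (2 ^ e + 1)).filter (fun p => p.Prime ∧ p ≡ κ [MOD K])).card : ℝ) := by
  have h1 : (range (2 ^ (e + 1) + 1)).filter (fun p => p.Prime ∧ p ≡ κ [MOD K]) =
      (range (2 ^ e + 1)).filter (fun p => p.Prime ∧ p ≡ κ [MOD K]) ∪ QC K κ e := by
    ext p
    rw [mem_union, mem_QC, mem_filter, mem_filter, mem_range, mem_range]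
    have h2 : 2 ^ e ≤ 2 ^ (e + 1) := Nat.pow_le_pow_right (by norm_num) (by omega)
    constructor
    · rintro ⟨h3, h4⟩
      by_cases h5 : p < 2 ^ e + 1
      · exact Or.inl ⟨h5, h4⟩
      · exact Or.inr ⟨⟨by omega, by omega⟩, h4⟩
    · rintro (⟨h3, h4⟩ | ⟨h3, h4⟩)
      · exact ⟨by omega, h4⟩
      · exact ⟨by omega, h4⟩
  rw [h1, card_union_of_disjoint]
  · push_cast
    ring
  · rw [disjoint_left]
    intro p hp hp'
    rw [mem_filter, mem_range] at hp
    rw [mem_QC] at hp'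
    omega

/-- lower bound for the number of primes -/
theorem card_QC_lower (K κ : ℕ) (hK : 0 < K) (hκ : κ.Coprime K) : ∃ (c : ℝ) (e₁ : ℕ), 0 < c ∧ 1 ≤ e₁ ∧
    ∀ e : ℕ, e₁ ≤ e → c * 2 ^ e / e ≤ ((QC K κ e).card : ℝ) := by
  have hp := Pool.Agent.MP_325d88_nt.pnt_ap K hK κ hκ
  have htot : (0 : ℝ) < Nat.totient K := by exact_mod_cast Nat.totient_pos.2 hK
  set dn : ℝ := 1 / (Nat.totient K : ℝ) with hdn
  have hκ0 : 0 < dn := by positivity
  have hpow : Tendsto (fun e : ℕ => 2 ^ e) atTop atTop :=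
    tendsto_pow_atTop_atTop_of_one_lt (by norm_num)
  have hp2 := hp.comp hpow
  have hlo := hp2.eventually_const_le (show 9 / 10 * dn < dn by linarith)
  have hhi := hp2.eventually_le_const (show dn < 11 / 10 * dn by linarith)
  rw [eventually_atTop] at hlo hhi
  obtain ⟨a₁, ha₁⟩ := hlo
  obtain ⟨a₂, ha₂⟩ := hhi
  refine ⟨dn / 2, max (max a₁ a₂) 10, by positivity, by
    have := le_max_right (max a₁ a₂) 10
    omega, ?_⟩
  intro e he
  have he1 : a₁ ≤ e := (le_max_left _ _).trans ((le_max_left _ _).trans he)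
  have he2 : a₂ ≤ e := (le_max_right _ _).trans ((le_max_left _ _).trans he)
  have he3 : 10 ≤ e := (le_max_right _ _).trans he
  have h1 := ha₁ (e + 1) (by omega)
  have h2 := ha₂ e he2
  simp only [Function.comp] at h1 h2
  rw [card_QC]
  set P₁ : ℝ := (((range (2 ^ (e + 1) + 1)).filter
    (fun p => p.Prime ∧ p ≡ κ [MOD K])).card : ℝ) with hP₁
  set P₀ : ℝ := (((range (2 ^ e + 1)).filter
    (fun p => p.Prime ∧ p ≡ κ [MOD K])).card : ℝ) with hP₀
  have hl2 : 0 < Real.log 2 := Real.log_pos (by norm_num)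
  have hl3 : Real.log 2 < 1 := by
    have := Real.log_two_lt_d9
    linarith
  have he0 : (10 : ℝ) ≤ e := by exact_mod_cast he3
  have hE : (0 : ℝ) < 2 ^ e := by positivity
  push_cast at h1 h2
  rw [Real.log_pow] at h1 h2
  push_cast at h1 h2
  rw [le_div_iff₀ (by positivity)] at h1
  rw [div_le_iff₀ (by positivity)] at h2
  -- h1 : 9/10 κ 2^(e+1) ≤ P₁ ((e+1) log 2);  h2 : P₀ (e log 2) ≤ 11/10 κ 2^e
  rw [div_le_iff₀ (by linarith)]
  have h3 : dn / 2 * 2 ^ e ≤ dn / 2 * 2 ^ e / Real.log 2 := by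
    rw [le_div_iff₀ hl2]
    have : 0 < dn / 2 * 2 ^ e := by positivity
    nlinarith
  have h4 : 18 / 11 * dn * 2 ^ e / Real.log 2 ≤ P₁ * e := by
    rw [div_le_iff₀ hl2]
    have h5 : (e : ℝ) + 1 ≤ 11 / 10 * e := by linarith
    have h6 : 0 ≤ P₁ := by positivity
    have h7 : P₁ * ((e + 1) * Real.log 2) ≤ P₁ * (11 / 10 * e * Real.log 2) := by
      apply mul_le_mul_of_nonneg_left _ h6
      exact mul_le_mul_of_nonneg_right h5 hl2.le
    have h8 : 9 / 10 * dn * 2 ^ (e + 1) = 9 / 5 * dn * 2 ^ e := by ring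
    rw [h8] at h1
    nlinarith
  have h5 : P₀ * e ≤ 11 / 10 * dn * 2 ^ e / Real.log 2 := by
    rw [le_div_iff₀ hl2]
    linarith
  have h6 : dn / 2 * 2 ^ e / Real.log 2 ≤ 18 / 11 * dn * 2 ^ e / Real.log 2 -
      11 / 10 * dn * 2 ^ e / Real.log 2 := by
    rw [← sub_div]
    apply div_le_div_of_nonneg_right _ hl2.le
    have : 0 < dn * 2 ^ e := by positivity
    nlinarith
  have h7 : (P₁ - P₀) * e = P₁ * e - P₀ * e := by ring
  rw [h7]
  linarith

/-- the choice of a good scale -/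
theorem good_scale (h1 : StED) (M : Mean) (A : Type) [Fintype A] [DecidableEq A]
    (φ : ℤ → A) (K κ : ℕ) (hK : 0 < K) (hκ : κ.Coprime K) (a : ℕ) (τ : ℝ) (hτ : 0 < τ) (E0 : ℕ) :
    ∃ e : ℕ, E0 ≤ e ∧ ∑ q ∈ QC K κ e, Iq M (win φ (2 ^ (e + a))) q ≤ τ * ((QC K κ e).card : ℝ) := by
  by_contra hcon
  push Not at hcon
  obtain ⟨c, e₁, hc, he₁, hcard⟩ := card_QC_lower K κ hK hκ
  set c1 : ℝ := τ * c / 2 ^ a with hc1
  have hc10 : 0 < c1 := by positivity
  -- one step
  have hstep : ∀ e t : ℕ, E0 ≤ e → e₁ ≤ e →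
      hh M φ (e + t + a) ≤ hh M φ (e + a) - c1 / e + 3 / 2 ^ t := by
    intro e t hE he
    have h3 := hh_step h1 M φ (QC K κ e) (fun q hq => (mem_QC.1 hq).2.1) (e + a) t
    have h4 := hcon e hE
    have h5 := hcard e he
    have h6 := sum_log_le K κ e
    have he0 : (0 : ℝ) < e := by exact_mod_cast (by omega : 0 < e)
    have e1 : e + t + a = e + a + t := by omega
    rw [e1]
    refine h3.trans ?_
    have h7 : c1 / e ≤ (∑ q ∈ QC K κ e, Iq M (win φ (2 ^ (e + a))) q) / 2 ^ (e + a) := by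
      rw [le_div_iff₀ (by positivity)]
      calc c1 / e * 2 ^ (e + a) = τ * (c * 2 ^ e / e) := by
            rw [hc1, pow_add]
            field_simp
        _ ≤ τ * ((QC K κ e).card : ℝ) := mul_le_mul_of_nonneg_left h5 hτ.le
        _ ≤ _ := h4.le
    have h8 : (∑ q ∈ QC K κ e, Real.log q) / 2 ^ (e + a + t) ≤ 3 / 2 ^ t := by
      rw [div_le_div_iff₀ (by positivity) (by positivity)]
      calc (∑ q ∈ QC K κ e, Real.log q) * 2 ^ t ≤ 3 * 2 ^ e * 2 ^ t :=
            mul_le_mul_of_nonneg_right h6 (by positivity)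
        _ ≤ 3 * 2 ^ e * 2 ^ t * 2 ^ a := by
            have : (1 : ℝ) ≤ 2 ^ a := one_le_pow₀ (by norm_num)
            have h9 : (0 : ℝ) < 3 * 2 ^ e * 2 ^ t := by positivity
            nlinarith
        _ = 3 * 2 ^ (e + a + t) := by rw [pow_add, pow_add]; ring
    linarith
  -- choice of `b`
  obtain ⟨b, hb⟩ : ∃ b : ℕ, 12 / c1 ≤ 2 ^ b := by
    obtain ⟨b, hb⟩ := pow_unbounded_of_one_lt (12 / c1) (show (1 : ℝ) < 2 by norm_num)
    exact ⟨b, hb.le⟩
  set j₁ : ℕ := b + E0 + e₁ + 4 with hj₁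
  have hanti := hh_anti h1 M φ
  -- block
  have hblock : ∀ j : ℕ, j₁ ≤ j →
      hh M φ (2 ^ (j + 1) + a) ≤ hh M φ (2 ^ j + a) - c1 / 8 / ((j : ℝ) + b) := by
    intro j hj
    have hjb : b ≤ j := by omega
    have hj4 : 4 ≤ j := by omega
    have hlt : j < 2 ^ j := Nat.lt_two_pow_self
    have h4j : 4 * j ≤ 2 ^ j := by
      clear hlt hjb hj
      induction j, hj4 using Nat.le_induction with
      | base => norm_num
      | succ n hn ih => rw [pow_succ]; omega
    set t : ℕ := j + b with ht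
    have ht0 : 0 < t := by omega
    have h2t : 2 * t ≤ 2 ^ j := by omega
    have h3t : (3 : ℝ) / 2 ^ t ≤ c1 / 2 ^ (j + 2) := by
      rw [div_le_iff₀ hc10] at hb
      rw [div_le_div_iff₀ (by positivity) (by positivity), ht, pow_add, pow_add]
      have : (0 : ℝ) < 2 ^ j := by positivity
      nlinarith
    set m : ℕ := 2 ^ j / t with hm
    have hmt : m * t ≤ 2 ^ j := Nat.div_mul_le_self _ _
    have hmt2 : 2 ^ j < m * t + t := by
      have := Nat.lt_div_mul_add (a := 2 ^ j) ht0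
      rw [← hm] at this
      exact this
    have hiter : ∀ i : ℕ, i ≤ m → hh M φ (2 ^ j + i * t + a) ≤
        hh M φ (2 ^ j + a) - i * (c1 / 2 ^ (j + 2)) := by
      intro i
      induction i with
      | zero => intro _; simp
      | succ i ih =>
        intro hi
        have h3 := ih (by omega)
        have h4 : i * t + t ≤ m * t := by
          have : (i + 1) * t ≤ m * t := Nat.mul_le_mul_right t hi
          rw [add_mul, one_mul] at this
          exact this
        have h5 := hstep (2 ^ j + i * t) t (by omega) (by omega)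
        have e1 : 2 ^ j + (i + 1) * t + a = 2 ^ j + i * t + t + a := by ring
        rw [e1]
        have h6 : c1 / 2 ^ (j + 1) ≤ c1 / ((2 ^ j + i * t : ℕ) : ℝ) := by
          apply div_le_div_of_nonneg_left hc10.le
          · have : 0 < 2 ^ j + i * t := by positivity
            exact_mod_cast this
          · have : 2 ^ j + i * t ≤ 2 ^ (j + 1) := by
              rw [pow_succ]
              omega
            exact_mod_cast this
        have h7 : c1 / 2 ^ (j + 1) = c1 / 2 ^ (j + 2) + c1 / 2 ^ (j + 2) := by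
          rw [pow_succ, pow_succ, pow_succ]
          field_simp
          ring
        push_cast
        push_cast at h6 h5
        linarith
    have h3 := hiter m le_rfl
    have h4 : hh M φ (2 ^ (j + 1) + a) ≤ hh M φ (2 ^ j + m * t + a) := by
      apply hanti
      have : 2 ^ (j + 1) = 2 ^ j + 2 ^ j := by rw [pow_succ]; ring
      omega
    have h5 : c1 / 8 / ((j : ℝ) + b) ≤ m * (c1 / 2 ^ (j + 2)) := by
      have h6 : (2 : ℝ) ^ j ≤ 2 * (m * t) := by
        have : 2 ^ j ≤ 2 * (m * t) := by omega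
        exact_mod_cast this
      have ht1 : ((j : ℝ) + b) = t := by rw [ht]; push_cast; ring
      have ht2 : (0 : ℝ) < t := by exact_mod_cast ht0
      rw [ht1, div_div, div_le_iff₀ (by positivity)]
      have h7 : (m : ℝ) * (c1 / 2 ^ (j + 2)) * (8 * t) = c1 * (2 * (m * t) / 2 ^ j) := by
        rw [pow_add]
        field_simp
        ring
      rw [h7]
      have h8 : 1 ≤ 2 * ((m : ℝ) * t) / 2 ^ j := by
        rw [le_div_iff₀ (by positivity)]
        linarith
      nlinarith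
    linarith
  apply harmonic_contra (fun i => hh M φ (2 ^ (j₁ + i) + a)) (fun n => hh_nonneg M φ _) (c1 / 8)
    (by positivity) (j₁ + b) (by omega)
  intro i
  have h3 := hblock (j₁ + i) (by omega)
  have e1 : ((j₁ + i : ℕ) : ℝ) + b = (i : ℝ) + ((j₁ + b : ℕ) : ℝ) := by push_cast; ring
  rw [e1] at h3
  exact h3

end DecC

open Dec DecC in
/-- Module DecoupleC. -/
theorem decoupleC (h1 : StED) (h2 : StPinsker) : StDecoupleC := by
  intro M A _ _ φ K κ hK hκ D0 ε hε E0
  set a : ℕ := 2 * (D0 + 1) with ha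
  have ha2 : 2 * (D0 + 1) ≤ 2 ^ a := by
    rw [← ha]
    exact Nat.lt_two_pow_self.le
  obtain ⟨e, heE, he⟩ := DecC.good_scale h1 M A φ K κ hK hκ a (ε ^ 2 / 4) (by positivity) E0
  refine ⟨e, heE, ?_⟩
  intro r D Ψ hD hΨ
  set n : ℝ := ((QC K κ e).card : ℝ) with hn
  have hn0 : 0 ≤ n := by positivity
  have hI : ∀ q ∈ QC K κ e, 0 ≤ Iq M (win φ (2 ^ (e + a))) q := fun q hq =>
    (h2 M _ (win φ (2 ^ (e + a))) q (mem_QC.1 hq).2.1.pos).1
  calc ∑ q ∈ QC K κ e, |M.E (fun x => if (q : ℤ) ∣ x - r q then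
          (q : ℝ) * Ψ q (φ x) (φ (x + ((D q * q : ℕ) : ℤ))) else 0) -
        M.E (fun x => Ψ q (φ x) (φ (x + ((D q * q : ℕ) : ℤ))))|
      ≤ ∑ q ∈ QC K κ e, 2 * √(Iq M (win φ (2 ^ (e + a))) q) := by
        apply sum_le_sum
        intro q hq
        have hq' := mem_QC.1 hq
        apply step1 h2 M A φ q (2 ^ (e + a)) (D q * q) hq'.2.1.pos _ (r q) (Ψ q) (hΨ q)
        calc q + D q * q ≤ q + D0 * q := Nat.add_le_add_left (Nat.mul_le_mul_right q (hD q)) q
          _ = (D0 + 1) * q := by ring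
          _ ≤ (D0 + 1) * 2 ^ (e + 1) := Nat.mul_le_mul_left _ hq'.1.2
          _ = 2 * (D0 + 1) * 2 ^ e := by rw [pow_succ]; ring
          _ ≤ 2 ^ a * 2 ^ e := Nat.mul_le_mul_right _ ha2
          _ = 2 ^ (e + a) := by rw [pow_add, mul_comm]
    _ = 2 * ∑ q ∈ QC K κ e, √(Iq M (win φ (2 ^ (e + a))) q) := by rw [mul_sum]
    _ ≤ 2 * (ε / 2 * n) := by
        apply mul_le_mul_of_nonneg_left _ (by norm_num)
        apply abs_le_of_sq_le_sq' _ (by positivity) |>.2
        calc (∑ q ∈ QC K κ e, √(Iq M (win φ (2 ^ (e + a))) q)) ^ 2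
            ≤ n * ∑ q ∈ QC K κ e, √(Iq M (win φ (2 ^ (e + a))) q) ^ 2 :=
              sq_sum_le_card_mul_sum_sq
          _ = n * ∑ q ∈ QC K κ e, Iq M (win φ (2 ^ (e + a))) q := by
              congr 1
              exact sum_congr rfl fun q hq => Real.sq_sqrt (hI q hq)
          _ ≤ n * (ε ^ 2 / 4 * n) := mul_le_mul_of_nonneg_left he hn0
          _ = (ε / 2 * n) ^ 2 := by ring
    _ = ε * n := by ring

end Pool.Agent.MP_a17b09_nt.OM
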