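import Mathlib
import Pool.Agent.Lib.MP_a17b09_nt.OM.Fin
import Pool.Agent.Lib.MP_a17b09_nt.OE.Stmts2

/-!
The final theorem for even moduli from the finitary colouring theorem.
-/

set_option autoImplicit false

namespace Pool.Agent.MP_a17b09_nt.OM

open Finset Pool.Agent.Lib.QuadParity Pool.Agent.Lib.QuadThree

/-- one step -/
theorem stepE (a b c : ℤ) (Δ : ℤ) (hΔ : Δ = b ^ 2 - 4 * a * c) (n k e : ℕ)
    (hn : n.Prime) (hk0 : 0 < k) (he : e = 1 ∨ e = 2) (s : ℤ)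
    (hn2 : IsCoprime (2 * a) (n : ℤ)) (hk2 : IsCoprime (2 * a) (k : ℤ)) (hnk : Nat.Coprime n k)
    (hnG : (n : ℤ) ∣ Gf Δ s) (hkG : (k : ℤ) ∣ Gf Δ s)
    (h1 : 0 < Gf Δ s) (h2 : 0 < Gf Δ (s + n * (e * k)))
    (hty : 2 * a ∣ s - b ∨ (e = 1 ∧ 2 * a ∣ s + n * k + b)) :
    ∃ l : ℤ, 0 < l ∧ Gf Δ s = (n * (e * k)) * l ∧ 2 * a ∣ s + l - b ∧ 0 < Gf Δ (s + l) ∧
      l ∣ Gf Δ (s + l) ∧
      Om (Gf Δ (s + l)) + 2 * (e + ArithmeticFunction.cardFactors k) =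
        Om (Gf Δ s) + Om (Gf Δ (s + n * (e * k))) := by
  have hfour : ∀ x : ℤ, 2 * a ∣ x - b → 4 * a ∣ Gf Δ x := by
    rintro x ⟨v, hv⟩
    refine ⟨v * (b + a * v) + c, ?_⟩
    have hx : x = b + 2 * a * v := by linear_combination hv
    rw [Gf_eq, hΔ, hx]; ring
  have hfour' : ∀ x : ℤ, 2 * a ∣ x + b → 4 * a ∣ Gf Δ x := by
    rintro x ⟨v, hv⟩
    refine ⟨v * (-b + a * v) + c, ?_⟩
    have hx : x = -b + 2 * a * v := by linear_combination hv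
    rw [Gf_eq, hΔ, hx]; ring
  have hcnk : IsCoprime (2 * a) ((n : ℤ) * k) := hn2.mul_right hk2
  have hnk' : IsCoprime (n : ℤ) (k : ℤ) := Nat.isCoprime_iff_coprime.2 hnk
  have hD : (n : ℤ) * k ∣ Gf Δ s := hnk'.mul_dvd hnG hkG
  have hD2 : (n : ℤ) * (e * k) ∣ Gf Δ s := by
    rcases he with rfl | rfl
    · simpa using hD
    · rcases hty with h | ⟨h, _⟩
      · have h3 : (2 : ℤ) ∣ Gf Δ s := dvd_trans ⟨2 * a, by ring⟩ (hfour s h)
        have h4 : IsCoprime (2 : ℤ) ((n : ℤ) * k) :=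
          hcnk.of_isCoprime_of_dvd_left (Dvd.intro a rfl)
        have h5 := h4.mul_dvd h3 hD
        have e1 : (n : ℤ) * (((2 : ℕ) : ℤ) * k) = 2 * (n * k) := by push_cast; ring
        rw [e1]; exact h5
      · exact absurd h (by norm_num)
  have he0 : 0 < e := by rcases he with rfl | rfl <;> norm_num
  have hDpos : (0 : ℤ) < (n : ℤ) * (e * k) := by
    have := hn.pos
    positivity
  obtain ⟨l, hl⟩ := hD2
  obtain ⟨hl0, hGl, hlG, hOm⟩ := pair_Om Δ s _ l hDpos h1 h2 hl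
  refine ⟨l, hl0, hl, ?_, hGl, hlG, ?_⟩
  · rcases hty with h | ⟨h, h'⟩
    · have h3 : 2 * a ∣ ((n : ℤ) * k) * l := by
        have h4 := hfour s h
        rw [hl] at h4
        rcases he with rfl | rfl
        · have h5 : 2 * a ∣ (n : ℤ) * (((1 : ℕ) : ℤ) * k) * l :=
            dvd_trans ⟨2, by ring⟩ h4
          simpa using h5
        · obtain ⟨w, hw⟩ := h4
          refine ⟨w, ?_⟩
          have h6 : (2 : ℤ) * ((n : ℤ) * k * l) = 2 * (2 * a * w) := by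
            push_cast at hw
            linear_combination hw
          exact mul_left_cancel₀ two_ne_zero h6
      have h4 : 2 * a ∣ l := hcnk.dvd_of_dvd_mul_left h3
      have e1 : s + l - b = (s - b) + l := by ring
      rw [e1]
      exact dvd_add h h4
    · subst h
      have h3 := hfour' _ h'
      obtain ⟨e1, _⟩ := mf_pair 0 (-Δ) s ((n : ℤ) * ((1 : ℕ) * k)) l hl
      have e1' : Gf Δ (s + n * k) = (n * k) * (l + 2 * s + n * k) := by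
        have e2 : Gf Δ (s + n * k) = Gf Δ (s + (n : ℤ) * ((1 : ℕ) * k)) := by
          rw [Nat.cast_one, one_mul]
        rw [e2]
        have e3 : Gf Δ (s + (n : ℤ) * ((1 : ℕ) * k)) =
          (n : ℤ) * ((1 : ℕ) * k) * (l + 2 * s + 0 + (n : ℤ) * ((1 : ℕ) * k)) := e1
        rw [e3]
        push_cast
        ring
      rw [e1'] at h3
      have h4 : 2 * a ∣ ((n : ℤ) * k) * (l + 2 * s + n * k) := dvd_trans ⟨2, by ring⟩ h3
      have h5 := hcnk.dvd_of_dvd_mul_left h4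
      have e4 : s + l - b = (l + 2 * s + n * k) - (s + n * k + b) := by ring
      rw [e4]
      exact dvd_sub h5 h'
  · have hOmD : Om ((n : ℤ) * (e * k)) = e + ArithmeticFunction.cardFactors k := by
      have hn0 : (n : ℤ) ≠ 0 := by exact_mod_cast hn.ne_zero
      have he0' : (e : ℤ) ≠ 0 := by exact_mod_cast he0.ne'
      have hk0' : (k : ℤ) ≠ 0 := by exact_mod_cast hk0.ne'
      rw [Om_mul hn0 (mul_ne_zero he0' hk0'), Om_mul he0' hk0', Om_prime hn]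
      have e5 : Om (k : ℤ) = ArithmeticFunction.cardFactors k := by
        unfold Om
        rw [Int.natAbs_natCast k]
      have e6 : 1 + Om (e : ℤ) = e := by
        rcases he with rfl | rfl
        · unfold Om
          simp
        · rw [Om_prime Nat.prime_two]
      rw [e5]
      omega
    rw [hOmD] at hOm
    exact hOm

/-- the value attached to a prime `n` -/
theorem singleE (a b c : ℤ) (Δ : ℤ) (hΔ : Δ = b ^ 2 - 4 * a * c)
    (K0 κ Y Q R y1 : ℕ) (m : ℕ) (g : ZMod m)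
    (hCT : ∀ (χ : ℕ → ZMod m) (r : ℕ → ℕ), ∃ y k : ℕ, y + 2 * k ≤ Y ∧ 0 < k ∧ Squarefree k ∧
      k ≡ κ [MOD K0] ∧
      (∀ p : ℕ, p.Prime → p ∣ k → (p ≡ 1 [MOD K0] ∨ p ≡ κ [MOD K0]) ∧ y ≡ r p [MOD p]) ∧
      ((y ≡ y1 [MOD R] ∧ χ y + χ (y + k) =
          2 * g + 2 * ((ArithmeticFunction.cardFactors k : ℕ) : ZMod m)) ∨
        (y ≡ y1 + κ [MOD R] ∧ χ y + χ (y + k) =
          2 * g + 2 * ((ArithmeticFunction.cardFactors k : ℕ) : ZMod m)) ∨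
        (y ≡ y1 [MOD R] ∧ χ y + χ (y + 2 * k) =
          2 * (g + 1) + 2 * ((ArithmeticFunction.cardFactors k : ℕ) : ZMod m))))
    (hroot : ∀ p : ℕ, p.Prime → (p ≡ 1 [MOD K0] ∨ p ≡ κ [MOD K0]) → ∃ ρ : ℤ, (p : ℤ) ∣ Gf Δ ρ)
    (hR : (R : ℤ) = 2 * a) (hRQ : R ∣ Q) (hRK : R ∣ K0) (hκ : κ.Coprime K0)
    (haκ : a ∣ (κ : ℤ) + b) (hy1 : (R : ℤ) ∣ y1 - b)
    (n : ℕ) (hn : n.Prime) (hnQ : n ≡ 1 [MOD Q]) (hnY : Y < n) (hn2 : 2 < n)
    (u : ℤ) (hu : (n : ℤ) ∣ Gf Δ (Q * u)) (σ : ℕ) (hpos : ∀ i : ℕ, i ≤ Y → 0 < Gf Δ (sA Q n u σ i)) :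
    ∃ (i k : ℕ) (l : ℤ), i + k ≤ Y ∧ 0 < k ∧ 0 < l ∧
      Gf Δ (sA Q n u σ i) = (n * k) * l ∧
      (R : ℤ) ∣ sA Q n u σ i + l - b ∧ 0 < Gf Δ (sA Q n u σ i + l) ∧
      l ∣ Gf Δ (sA Q n u σ i + l) ∧
      ((Om (Gf Δ (sA Q n u σ i + l)) : ℕ) : ZMod m) = 2 * g - 2 ∧
      Om (Gf Δ (sA Q n u σ i + l)) ≤
        Om (Gf Δ (sA Q n u σ i)) + Om (Gf Δ (sA Q n u σ (i + k))) := by
  classical
  have hidx : ∀ p : ℕ, ∃ i : ℕ, p.Prime → (p ≡ 1 [MOD K0] ∨ p ≡ κ [MOD K0]) → p ≠ n →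
      (p : ℤ) ∣ Gf Δ (sA Q n u σ i) := by
    intro p
    by_cases h : p.Prime ∧ (p ≡ 1 [MOD K0] ∨ p ≡ κ [MOD K0]) ∧ p ≠ n
    · obtain ⟨hp, hpK, hpn⟩ := h
      obtain ⟨ρ, hρ⟩ := hroot p hp hpK
      obtain ⟨i, hi⟩ := exists_idx Δ p n hp (fun hd => hpn ((Nat.prime_dvd_prime_iff_eq hp hn).1 hd))
        (Q * (u + n * (σ + 1))) ρ hρ
      exact ⟨i, fun _ _ _ => hi⟩
    · exact ⟨0, fun h1 h2 h3 => absurd ⟨h1, h2, h3⟩ h⟩
  choose r hr using hidx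
  obtain ⟨y, k, hyk, hk0, hksq, hkκ, hkp, hcase⟩ := hCT
    (fun i => ((Om (Gf Δ (sA Q n u σ i)) : ℕ) : ZMod m)) r
  obtain ⟨s, hs⟩ : ∃ s, s = sA Q n u σ y := ⟨_, rfl⟩
  have hkG : (k : ℤ) ∣ Gf Δ s := by
    apply sqfree_dvd k hksq
    intro p hp hpk
    obtain ⟨h1, h2⟩ := hkp p hp hpk
    have hpn : p ≠ n := by
      have := Nat.le_of_dvd hk0 hpk
      omega
    have h3 := hr p hp h1 hpn
    rw [hs]
    refine (Gf_dvd_of Δ p _ _ ?_).2 h3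
    have h4 : (p : ℤ) ∣ (y : ℤ) - (r p : ℤ) := Nat.modEq_iff_dvd.1 h2.symm
    have e : sA Q n u σ y - sA Q n u σ (r p) = n * ((y : ℤ) - r p) := by unfold sA; ring
    rw [e]
    exact h4.mul_left _
  have hnG : (n : ℤ) ∣ Gf Δ s := by
    refine (Gf_dvd_of Δ n _ _ ?_).2 hu
    rw [hs]
    refine ⟨Q * (σ + 1) + y, ?_⟩
    unfold sA; ring
  have hn1R : (R : ℤ) ∣ (n : ℤ) - 1 := by
    have h1 : (Q : ℤ) ∣ (n : ℤ) - ((1 : ℕ) : ℤ) := Nat.modEq_iff_dvd.1 hnQ.symm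
    have h2 : (R : ℤ) ∣ (Q : ℤ) := by exact_mod_cast hRQ
    have h3 := h2.trans h1
    push_cast at h3
    exact h3
  have hkκR : (R : ℤ) ∣ (k : ℤ) - κ := by
    have h1 : (K0 : ℤ) ∣ (k : ℤ) - (κ : ℤ) := Nat.modEq_iff_dvd.1 hkκ.symm
    have h2 : (R : ℤ) ∣ (K0 : ℤ) := by exact_mod_cast hRK
    exact h2.trans h1
  have hsy : ∀ x : ℤ, (R : ℤ) ∣ (y : ℤ) - x → (R : ℤ) ∣ s - x := by
    intro x hx
    obtain ⟨q, hq⟩ := hRQ
    have e : s - x = R * (q * (u + n * (σ + 1))) + (n - 1) * y + (y - x) := by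
      rw [hs]; unfold sA; rw [hq]; push_cast; ring
    rw [e]
    exact dvd_add (dvd_add (Dvd.intro _ rfl) (hn1R.mul_right _)) hx
  have hn2' : IsCoprime (2 * a) (n : ℤ) := by
    rw [← hR]
    obtain ⟨v, hv⟩ := hn1R
    exact ⟨-v, 1, by linear_combination hv⟩
  have hk2' : IsCoprime (2 * a) (k : ℤ) := by
    rw [← hR]
    have h1 : k.Coprime K0 := by
      have h2 := hkκ.gcd_eq
      unfold Nat.Coprime at hκ ⊢
      rw [Nat.gcd_comm k K0, Nat.gcd_comm K0 k, h2, hκ]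
    exact (Nat.isCoprime_iff_coprime.2 (h1.symm.coprime_dvd_left hRK))
  have hkY : k ≤ Y := by omega
  have hnk : Nat.Coprime n k := by
    rw [hn.coprime_iff_not_dvd]
    intro h
    exact absurd (Nat.le_of_dvd hk0 h) (by omega)
  have hp1 : 0 < Gf Δ s := by rw [hs]; exact hpos y (by omega)
  have hsD : ∀ e : ℕ, s + (n : ℤ) * (e * k) = sA Q n u σ (y + e * k) := by
    intro e
    rw [hs]; unfold sA; push_cast; ring
  -- the three types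
  have hmain : ∃ e : ℕ, (e = 1 ∨ e = 2) ∧
      (2 * a ∣ s - b ∨ (e = 1 ∧ 2 * a ∣ s + n * k + b)) ∧
      ((Om (Gf Δ (sA Q n u σ y)) : ℕ) : ZMod m) +
        ((Om (Gf Δ (sA Q n u σ (y + e * k))) : ℕ) : ZMod m) =
        2 * g - 2 + 2 * (e + ((ArithmeticFunction.cardFactors k : ℕ) : ZMod m)) := by
    rcases hcase with ⟨h1, h2⟩ | ⟨h1, h2⟩ | ⟨h1, h2⟩
    · refine ⟨1, Or.inl rfl, Or.inl ?_, ?_⟩
      · have h3 : (R : ℤ) ∣ (y : ℤ) - b := by
          have h4 : (R : ℤ) ∣ (y : ℤ) - (y1 : ℤ) := Nat.modEq_iff_dvd.1 h1.symm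
          have e : (y : ℤ) - b = (y - y1) + (y1 - b) := by ring
          rw [e]; exact dvd_add h4 hy1
        have h5 := hsy b h3
        rwa [hR] at h5
      · rw [one_mul, h2]
        push_cast
        ring
    · refine ⟨1, Or.inl rfl, Or.inr ⟨rfl, ?_⟩, ?_⟩
      · have h3 : (R : ℤ) ∣ (y : ℤ) - (b + κ) := by
          have h4 : (R : ℤ) ∣ (y : ℤ) - ((y1 + κ : ℕ) : ℤ) := Nat.modEq_iff_dvd.1 h1.symm
          have e : (y : ℤ) - (b + κ) = (y - ((y1 + κ : ℕ) : ℤ)) + (y1 - b) := by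
            push_cast; ring
          rw [e]; exact dvd_add h4 hy1
        have h5 := hsy _ h3
        have h6 : (R : ℤ) ∣ 2 * ((κ : ℤ) + b) := by
          rw [hR]; exact mul_dvd_mul_left 2 haκ
        have e : s + n * k + b = (s - (b + κ)) + ((n - 1) * k + (k - κ)) + 2 * (κ + b) := by
          ring
        rw [← hR, e]
        exact dvd_add (dvd_add h5 (dvd_add (hn1R.mul_right _) hkκR)) h6
      · rw [one_mul, h2]
        push_cast
        ring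
    · refine ⟨2, Or.inr rfl, Or.inl ?_, ?_⟩
      · have h3 : (R : ℤ) ∣ (y : ℤ) - b := by
          have h4 : (R : ℤ) ∣ (y : ℤ) - (y1 : ℤ) := Nat.modEq_iff_dvd.1 h1.symm
          have e : (y : ℤ) - b = (y - y1) + (y1 - b) := by ring
          rw [e]; exact dvd_add h4 hy1
        have h5 := hsy b h3
        rwa [hR] at h5
      · rw [h2]
        push_cast
        ring
  obtain ⟨e, he, hty, hχ⟩ := hmain
  have he2 : e ≤ 2 := by rcases he with rfl | rfl <;> norm_num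
  have he0 : 0 < e := by rcases he with rfl | rfl <;> norm_num
  have hek : e * k ≤ 2 * k := Nat.mul_le_mul_right k he2
  have hp2 : 0 < Gf Δ (s + (n : ℤ) * (e * k)) := by rw [hsD]; exact hpos _ (by omega)
  obtain ⟨l, hl0, hl, hlR, hGl, hlG, hOm⟩ := stepE a b c Δ hΔ n k e hn hk0 he s hn2' hk2' hnk
    hnG hkG hp1 hp2 hty
  refine ⟨y, e * k, l, by omega, Nat.mul_pos he0 hk0, hl0, ?_, ?_, ?_, ?_, ?_, ?_⟩
  · rw [← hs, hl]; push_cast; ring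
  · rw [← hs, hR]; exact hlR
  · rw [← hs]; exact hGl
  · rw [← hs]; exact hlG
  · rw [← hs]
    have h2 := congrArg (fun x : ℕ => (x : ZMod m)) hOm
    push_cast at h2
    rw [hsD e] at h2
    rw [← hs] at hχ
    linear_combination h2 + hχ
  · rw [← hs, ← hsD]
    omega

theorem countE (a b c : ℤ) (ha : 0 < a) (Δ : ℤ) (hΔdef : Δ = b ^ 2 - 4 * a * c)
    (hΔ : ¬ IsSquare Δ) (m : ℕ) (ρ : ZMod m)
    (K0 κ Y Q R y1 D E : ℕ) (g : ZMod m)
    (hCT : ∀ (χ : ℕ → ZMod m) (r : ℕ → ℕ), ∃ y k : ℕ, y + 2 * k ≤ Y ∧ 0 < k ∧ Squarefree k ∧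
      k ≡ κ [MOD K0] ∧
      (∀ p : ℕ, p.Prime → p ∣ k → (p ≡ 1 [MOD K0] ∨ p ≡ κ [MOD K0]) ∧ y ≡ r p [MOD p]) ∧
      ((y ≡ y1 [MOD R] ∧ χ y + χ (y + k) =
          2 * g + 2 * ((ArithmeticFunction.cardFactors k : ℕ) : ZMod m)) ∨
        (y ≡ y1 + κ [MOD R] ∧ χ y + χ (y + k) =
          2 * g + 2 * ((ArithmeticFunction.cardFactors k : ℕ) : ZMod m)) ∨
        (y ≡ y1 [MOD R] ∧ χ y + χ (y + 2 * k) =
          2 * (g + 1) + 2 * ((ArithmeticFunction.cardFactors k : ℕ) : ZMod m))))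
    (hroot : ∀ p : ℕ, p.Prime → (p ≡ 1 [MOD K0] ∨ p ≡ κ [MOD K0]) → ∃ ρ : ℤ, (p : ℤ) ∣ Gf Δ ρ)
    (hrootQ : ∀ p : ℕ, p.Prime → p ≡ 1 [MOD Q] → ∃ ρ : ℤ, (p : ℤ) ∣ Gf Δ ρ)
    (hR : (R : ℤ) = 2 * a) (hRQ : R ∣ Q) (hRK : R ∣ K0) (hκ : κ.Coprime K0)
    (haκ : a ∣ (κ : ℤ) + b) (hy1 : (R : ℤ) ∣ y1 - b)
    (hg : 2 * g - 2 = ρ + ((Om (4 * a) : ℕ) : ZMod m))
    (hQ : 0 < Q) (hDY : 2 * (Y + 1) ≤ D) (hE : Y ^ 2 + Δ.natAbs < 2 ^ E)
    (hpQ : ∀ p : ℕ, p.Prime → p ≤ D → p ^ E ∣ Q) (hpQ' : ∀ p : ℕ, p.Prime → D < p → ¬ p ∣ Q)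
    (N0 : ℕ) (hN0 : SieveBound D N0) (ν : ℕ) (hν : N0 ≤ ν) (K : Finset ℕ)
    (hK : ∀ k ∈ K, k.Prime ∧ k ≡ 1 [MOD Q] ∧
      2 ^ (2 ^ ν) + (Y + 2 + Δ.natAbs + 2 * a.natAbs + b.natAbs + D + 5) < k)
    (N : ℕ) (hN : ∀ k ∈ K, 4 * ((2 * Q + Y : ℕ) : ℤ) ^ 2 * k *
      (2 ^ ((8 * D + 7) * 2 ^ ν)) ^ 2 ≤ (N : ℤ))
    (B : ℕ) (hB : ∀ μ : ℕ, ((2 : ℤ) ^ (2 ^ ν)) ^ μ ≤ ((1 + |Δ|) * (N : ℤ) ^ 2) ^ 2 →
      2 * (D * E) + μ ≤ B) :
    (K.card : ℝ) * (2 : ℝ) ^ ((8 * D + 7) * 2 ^ ν) ≤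
      2 ^ ((2 * D + 1) * ν) *
        (((goodF a b c m ρ 0 1 B N).card : ℝ) *
          ((((Y + 1) * (Y + 1) * 2 ^ Om (4 * a) : ℕ) : ℝ) * 2 ^ B)) := by
  classical
  obtain ⟨z, hz⟩ : ∃ z : ℕ, z = 2 ^ (2 ^ ν) := ⟨_, rfl⟩
  simp only [← hz] at hK
  obtain ⟨W, hW⟩ : ∃ W : ℤ, W = 2 ^ ((8 * D + 7) * 2 ^ ν) := ⟨_, rfl⟩
  simp only [← hW] at hN
  obtain ⟨H, hH⟩ : ∃ H : ℤ, H = 2 * Q + Y := ⟨_, rfl⟩
  have hW1 : 1 ≤ W := by rw [hW]; exact one_le_pow₀ (by norm_num)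
  have hH1 : 1 ≤ H := by
    have : (1 : ℤ) ≤ Q := by exact_mod_cast hQ
    have : (0 : ℤ) ≤ Y := Nat.cast_nonneg Y
    linarith
  -- base points
  have hdata : ∀ n : ℕ, n ∈ K → ∃ u : ℤ, 0 ≤ u ∧ u < n ∧ (n : ℤ) ∣ Gf Δ (Q * u) := by
    intro n hn
    obtain ⟨hnp, hnQ, hnz⟩ := hK n hn
    obtain ⟨ρ', hρ'⟩ := hrootQ n hnp hnQ
    have hcop : IsCoprime (n : ℤ) (Q : ℤ) := by
      have h1 : (Q : ℤ) ∣ (n : ℤ) - ((1 : ℕ) : ℤ) := Nat.modEq_iff_dvd.1 hnQ.symm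
      obtain ⟨v, hv⟩ := h1
      push_cast at hv
      exact ⟨1, -v, by linear_combination hv⟩
    obtain ⟨v, w, hvw⟩ := hcop
    have hn0 : (0 : ℤ) < n := by exact_mod_cast hnp.pos
    refine ⟨(w * ρ') % n, Int.emod_nonneg _ hn0.ne', Int.emod_lt_of_pos _ hn0, ?_⟩
    refine (Gf_dvd_of Δ n _ ρ' ?_).2 hρ'
    have h5 := Int.emod_add_mul_ediv (w * ρ') n
    have h6 : (w * ρ') % n = w * ρ' - n * ((w * ρ') / n) := by linarith
    rw [h6]
    refine ⟨-(v * ρ') - Q * ((w * ρ') / n), ?_⟩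
    linear_combination ρ' * hvw
  choose! u hu0 hun huG using hdata
  -- the sifted sets
  set Sk : ℕ → Finset ℕ := fun n => Pool.Agent.Lib.QuadThree.sifted D (badF Δ Y Q n (u n)) ν with hSk
  set G : Finset (Σ _ : ℕ, ℕ) := K.sigma Sk with hG
  have hcardG : (K.card : ℝ) * (2 : ℝ) ^ ((8 * D + 7) * 2 ^ ν) ≤
      2 ^ ((2 * D + 1) * ν) * (G.card : ℝ) := by
    rw [hG, Finset.card_sigma]
    push_cast
    rw [Finset.mul_sum, ← nsmul_eq_mul, ← Finset.sum_const]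
    apply Finset.sum_le_sum
    intro n hn
    obtain ⟨hnp, hnQ, hnz⟩ := hK n hn
    apply hN0 ν hν
    · exact per_badF _ _ _ _ _
    · intro p hp h4 hpz
      rw [← hz] at hpz
      apply nb_badF Δ Y Q n D hDY (u n) p hp
      · intro hd
        have h2 := (Nat.prime_dvd_prime_iff_eq hp hnp).1 hd
        omega
      · exact hpQ' p hp h4
  refine hcardG.trans ?_
  apply mul_le_mul_of_nonneg_left _ (by positivity)
  -- the map
  set U : Finset (Σ _ : ℕ, (ℕ × ℕ) × ℕ) := (goodF a b c m ρ 0 1 B N).sigma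
    (fun t => (Finset.range (Y + 1) ×ˢ Finset.range (Y + 1)) ×ˢ
      (4 * a * (a * (t : ℤ) ^ 2 + b * t + c)).natAbs.divisors) with hU
  have hcardU : (U.card : ℝ) ≤ ((goodF a b c m ρ 0 1 B N).card : ℝ) *
      ((((Y + 1) * (Y + 1) * 2 ^ Om (4 * a) : ℕ) : ℝ) * 2 ^ B) := by
    rw [hU, Finset.card_sigma]
    push_cast
    rw [← nsmul_eq_mul, ← Finset.sum_const]
    apply Finset.sum_le_sum
    intro t ht
    rw [Finset.card_product, Finset.card_product, Finset.card_range]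
    push_cast
    rw [mul_assoc (((Y : ℝ) + 1) * ((Y : ℝ) + 1))]
    apply mul_le_mul_of_nonneg_left _ (by positivity)
    unfold goodF at ht
    rw [Finset.mem_filter] at ht
    obtain ⟨_, _, hf0, hfB, _⟩ := ht
    have h4a : (4 * a : ℤ) ≠ 0 := by linarith
    have h0 : 4 * a * (a * (t : ℤ) ^ 2 + b * t + c) ≠ 0 := mul_ne_zero h4a hf0.ne'
    have h1 := card_divisors_le _ (Int.natAbs_ne_zero.2 h0)
    have h2 : ArithmeticFunction.cardFactors (4 * a * (a * (t : ℤ) ^ 2 + b * t + c)).natAbs =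
        Om (4 * a) + Om (a * (t : ℤ) ^ 2 + b * t + c) := Om_mul h4a hf0.ne'
    rw [h2] at h1
    have h3 : 2 ^ (Om (4 * a) + Om (a * (t : ℤ) ^ 2 + b * t + c)) ≤ 2 ^ Om (4 * a) * 2 ^ B := by
      rw [pow_add]
      exact Nat.mul_le_mul_left _ (Nat.pow_le_pow_right (by norm_num) hfB)
    exact_mod_cast h1.trans h3
  refine le_trans ?_ hcardU
  have hprops : ∀ p : (Σ _ : ℕ, ℕ), p ∈ G → ∃ (i k t d : ℕ),
      (⟨t, ((i, k), d)⟩ : Σ _ : ℕ, (ℕ × ℕ) × ℕ) ∈ U ∧ 0 < k ∧ ∃ l : ℤ, 0 < l ∧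
          Gf Δ (sA Q p.1 (u p.1) p.2 i) = (p.1 * k) * l ∧
          2 * a * (t : ℤ) + b = sA Q p.1 (u p.1) p.2 i + l ∧ d = l.natAbs := by
    rintro ⟨n, σ⟩ hp
    rw [hG, Finset.mem_sigma] at hp
    obtain ⟨hn, hσ⟩ := hp
    simp only at hn hσ
    rw [hSk, Pool.Agent.Lib.QuadThree.mem_sifted] at hσ
    obtain ⟨hnp, hnQ, hnz⟩ := hK n hn
    have hNn := hN n hn
    have hHc : ((2 * Q + Y : ℕ) : ℤ) = H := by rw [hH]; push_cast; ring
    rw [hHc] at hNn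
    have hn1 : (1 : ℤ) ≤ n := by exact_mod_cast hnp.one_le
    have habsΔ : |Δ| < n := by
      have h2 : |Δ| = (Δ.natAbs : ℤ) := (Int.natCast_natAbs Δ).symm
      rw [h2]
      have : Δ.natAbs < n := by omega
      exact_mod_cast this
    have habn : 2 * a + |b| + 1 ≤ n := by
      have h2 : |b| = (b.natAbs : ℤ) := (Int.natCast_natAbs b).symm
      have h3 : a = (a.natAbs : ℤ) := (Int.natAbs_of_nonneg ha.le).symm
      rw [h2]
      omega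
    have hbnd : ∀ i : ℕ, i ≤ Y → (n : ℤ) ≤ sA Q n (u n) σ i ∧ sA Q n (u n) σ i ≤ n * W * H := by
      intro i hi
      rw [hH]
      apply sA_bounds Q n Y hQ (u n) (hu0 n hn) (hun n hn) σ i hi W
      have : σ + 1 ≤ 2 ^ ((8 * D + 7) * 2 ^ ν) := hσ.1
      rw [hW]
      exact_mod_cast this
    have hpos : ∀ i : ℕ, i ≤ Y → 0 < Gf Δ (sA Q n (u n) σ i) := by
      intro i hi
      rw [Gf_eq]
      have h1 := (hbnd i hi).1
      have h2 : |Δ| < sA Q n (u n) σ i := by linarith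
      have h3 : sA Q n (u n) σ i ≤ (sA Q n (u n) σ i) ^ 2 := Int.le_self_sq _
      linarith [le_abs_self Δ]
    obtain ⟨i, k, l, hik, hk0, hl0, hl1, hl2, hl3, hl4, hl5, hl6⟩ := singleE a b c Δ hΔdef
      K0 κ Y Q R y1 m g hCT hroot hR hRQ hRK hκ haκ hy1 n hnp hnQ (by omega) (by omega)
      (u n) (huG n hn) σ hpos
    have hkY : k ≤ Y := by omega
    have hiY : i ≤ Y := by omega
    -- the argument `t`
    obtain ⟨t, hv⟩ : ∃ t : ℤ, sA Q n (u n) σ i + l = 2 * a * t + b := by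
      obtain ⟨v1, hv1⟩ := hl2
      refine ⟨v1, ?_⟩
      rw [hR] at hv1
      linear_combination hv1
    have hfG : Gf Δ (sA Q n (u n) σ i + l) = 4 * a * (a * t ^ 2 + b * t + c) := by
      rw [hv, Gf_eq, hΔdef]; ring
    have h4a0 : (0 : ℤ) < 4 * a := by linarith
    have hf0 : 0 < a * t ^ 2 + b * t + c := by
      rw [hfG] at hl3
      exact pos_of_mul_pos_right hl3 h4a0.le
    -- sizes
    have hs := hbnd i hiY
    have hnl : (n : ℤ) * l ≤ (sA Q n (u n) σ i) ^ 2 + |Δ| := by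
      have h2 : (n : ℤ) * l ≤ Gf Δ (sA Q n (u n) σ i) := by
        rw [hl1]
        have h3 : (1 : ℤ) ≤ (k : ℤ) := by exact_mod_cast hk0
        have h4 : (0 : ℤ) ≤ n * l := by positivity
        calc (n : ℤ) * l ≤ n * l * k := le_mul_of_one_le_right h4 h3
          _ = n * k * l := by ring
      rw [Gf_eq] at h2
      linarith [neg_abs_le Δ]
    obtain ⟨hNpos, ht1, htN⟩ := size_t n W H (sA Q n (u n) σ i) l a b N t |Δ| hn1 hW1 hH1 hs.1 hs.2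
      hl0 hnl habsΔ ha habn hNn hv
    have htt : ((t.toNat : ℕ) : ℤ) = t := Int.toNat_of_nonneg (by linarith)
    -- numbers of prime factors
    have hN1 : (1 : ℤ) ≤ N := by linarith
    have hOmB : Om (Gf Δ (sA Q n (u n) σ i + l)) ≤ B := by
      have hrough : ∀ j : ℕ, j ≤ Y → ∃ μ : ℕ, Om (Gf Δ (sA Q n (u n) σ j)) ≤ D * E + μ ∧
          (z : ℤ) ^ μ ≤ (1 + |Δ|) * (N : ℤ) ^ 2 := by
        intro j hj
        have hpj := hpos j hj
        obtain ⟨μ, h1, h2⟩ := rough_bound' (Gf Δ (sA Q n (u n) σ j)).natAbs z D E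
          (Int.natAbs_ne_zero.2 hpj.ne') (by
            intro p hp hpD hd
            apply small_primes Δ hΔ Y Q n E hE hnQ (u n) σ p hp (hpQ p hp hpD) j hj
            have : ((p ^ E : ℕ) : ℤ) ∣ Gf Δ (sA Q n (u n) σ j) := Int.natCast_dvd.2 hd
            exact_mod_cast this) (by
            intro p hp hpD hd
            by_contra hcon
            push Not at hcon
            apply hσ.2 p hp hpD (by rw [← hz]; exact hcon.le)
            unfold badF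
            refine dvd_trans (Int.natCast_dvd.2 hd) ?_
            exact Finset.dvd_prod_of_mem (fun j => Gf Δ (sA Q n (u n) σ j))
              (Finset.mem_range.2 (by omega)))
        refine ⟨μ, h1, ?_⟩
        have h3 : ((z ^ μ : ℕ) : ℤ) ≤ ((Gf Δ (sA Q n (u n) σ j)).natAbs : ℤ) := by exact_mod_cast h2
        rw [Int.natAbs_of_nonneg hpj.le] at h3
        push_cast at h3
        refine h3.trans ?_
        rw [Gf_eq]
        have h4 := hbnd j hj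
        have h5 : (sA Q n (u n) σ j) ^ 2 ≤ (N : ℤ) ^ 2 :=
          pow_le_pow_left₀ (by linarith [h4.1]) (h4.2.trans hNpos) 2
        have h6 : (1 : ℤ) ≤ (N : ℤ) ^ 2 := one_le_pow₀ hN1
        have h7 : |Δ| * 1 ≤ |Δ| * (N : ℤ) ^ 2 := mul_le_mul_of_nonneg_left h6 (abs_nonneg Δ)
        linarith [neg_abs_le Δ]
      obtain ⟨μ1, h1, h2⟩ := hrough i hiY
      obtain ⟨μ2, h3, h4⟩ := hrough (i + k) hik
      have h5 := hB (μ1 + μ2) (by
        have e : ((2 : ℤ) ^ (2 ^ ν)) = (z : ℤ) := by rw [hz]; push_cast; rfl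
        rw [e, pow_add, sq]
        exact mul_le_mul h2 h4 (by positivity) (by positivity))
      have h6 : 2 * (D * E) = D * E + D * E := by ring
      omega
    have hOmf : Om (Gf Δ (sA Q n (u n) σ i + l)) = Om (4 * a) + Om (a * t ^ 2 + b * t + c) := by
      rw [hfG, Om_mul h4a0.ne' hf0.ne']
    refine ⟨i, k, t.toNat, l.natAbs, ?_, hk0, l, hl0, hl1, ?_, rfl⟩
    · rw [hU, Finset.mem_sigma]
      simp only
      constructor
      · unfold goodF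
        rw [Finset.mem_filter, Finset.mem_Icc, htt]
        refine ⟨⟨by omega, by omega⟩, ?_, hf0, by omega, ?_⟩
        · exact Nat.modEq_one
        · rw [hOmf] at hl5
          push_cast at hl5
          linear_combination hl5 + hg
      · rw [Finset.mem_product, Finset.mem_product, Nat.mem_divisors, htt, ← hfG]
        refine ⟨⟨Finset.mem_range.2 (Nat.lt_succ_of_le hiY),
          Finset.mem_range.2 (Nat.lt_succ_of_le hkY)⟩, ?_, Int.natAbs_ne_zero.2 hl3.ne'⟩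
        exact Int.natAbs_dvd_natAbs.2 hl4
    · rw [htt]
      exact hv.symm
  choose! I M T Dv hU1 hM0 L hL0 hL1 hL2 hL3 using hprops
  have : G.card ≤ U.card := by
    apply Finset.card_le_card_of_injOn
      (fun p => (⟨T p, ((I p, M p), Dv p)⟩ : Σ _ : ℕ, (ℕ × ℕ) × ℕ))
    · intro p hp
      exact hU1 p hp
    · rintro ⟨n, σ⟩ hp ⟨n', σ'⟩ hp' heq
      have hp1 := hp
      have hp1' := hp'
      rw [Finset.mem_coe, hG, Finset.mem_sigma] at hp1 hp1'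
      have hnK : n ∈ K := hp1.1
      have hnK' : n' ∈ K := hp1'.1
      have a0 := hL0 ⟨n, σ⟩ hp
      have a1 := hL1 ⟨n, σ⟩ hp
      have a2 := hL2 ⟨n, σ⟩ hp
      have a3 := hL3 ⟨n, σ⟩ hp
      have a4 := hM0 ⟨n, σ⟩ hp
      have b0 := hL0 ⟨n', σ'⟩ hp'
      have b1 := hL1 ⟨n', σ'⟩ hp'
      have b2 := hL2 ⟨n', σ'⟩ hp'
      have b3 := hL3 ⟨n', σ'⟩ hp'
      simp only [Sigma.mk.injEq, heq_eq_eq, Prod.mk.injEq] at heq
      obtain ⟨hT, ⟨hI, hM⟩, hDd⟩ := heq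
      rw [← hI, ← hM] at b1
      rw [← hT, ← hI] at b2
      rw [← hDd] at b3
      generalize T ⟨n, σ⟩ = t at *
      generalize I ⟨n, σ⟩ = i at *
      generalize M ⟨n, σ⟩ = k at *
      generalize Dv ⟨n, σ⟩ = d at *
      generalize L ⟨n, σ⟩ = l at *
      generalize L ⟨n', σ'⟩ = l' at *
      simp only at a0 a1 a2 a3 a4 b0 b1 b2 b3
      have hll : l = l' := by omega
      subst hll
      have hss : sA Q n (u n) σ i = sA Q n' (u n') σ' i := by linarith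
      rw [← hss, a1] at b1
      have h4 := mul_right_cancel₀ a0.ne' b1
      have hk0 : (k : ℤ) ≠ 0 := by exact_mod_cast a4.ne'
      have h6 := mul_right_cancel₀ hk0 h4
      have h7 : n = n' := by exact_mod_cast h6
      subst h7
      rw [sA_inj Q n hQ (hK n hnK).1.pos (u n) σ σ' i hss]
  exact_mod_cast this

theorem finE_even (hct : StCTE) (hk : StKap) (a b c : ℤ) (ha : 0 < a) (hab : IsCoprime a b)
    (hsq : ¬ IsSquare (b ^ 2 - 4 * a * c)) (m : ℕ) (hme : Even m) (hm : 0 < m) (j : ℕ) :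
    ∃ C : ℕ, ∀ ε : ℝ, 0 < ε → ε ≤ 1 / 2 → ∃ N₁ : ℕ, ∀ N : ℕ, N₁ ≤ N →
      (N : ℝ) ^ (1 - ε) ≤ ((goodF a b c m
        ((ArithmeticFunction.cardFactors a.natAbs + 2 * j : ℕ) : ZMod m) 0 1
          ⌊(C : ℝ) / ε⌋₊ N).card : ℝ) := by
  have hsq0 : b ^ 2 - 4 * a * c ≠ 0 := by
    intro h
    rw [h] at hsq
    exact hsq ⟨0, by norm_num⟩
  obtain ⟨κ, K0, hK0pos, hκ, haK, haκ, hroot1, hroot2⟩ := hk a b c ha hab hsq0
  obtain ⟨Δ, hΔdef⟩ : ∃ Δ : ℤ, Δ = b ^ 2 - 4 * a * c := ⟨_, rfl⟩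
  rw [← hΔdef] at hsq hsq0 hroot1 hroot2
  obtain ⟨R, hR⟩ : ∃ R : ℕ, (R : ℤ) = 2 * a := ⟨(2 * a).toNat, Int.toNat_of_nonneg (by positivity)⟩
  have hRpos : 0 < R := by
    have : (0 : ℤ) < 2 * a := by positivity
    rw [← hR] at this
    exact_mod_cast this
  have hRK : R ∣ K0 := by
    rw [← hR] at haK
    exact_mod_cast haK
  obtain ⟨y1, hy1⟩ : ∃ y1 : ℕ, (R : ℤ) ∣ (y1 : ℤ) - b := by
    have hR0 : (R : ℤ) ≠ 0 := by exact_mod_cast hRpos.ne'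
    refine ⟨(b % R).toNat, ?_⟩
    rw [Int.toNat_of_nonneg (Int.emod_nonneg b hR0)]
    have h5 := Int.emod_add_mul_ediv b R
    exact ⟨-(b / R), by linear_combination h5⟩
  obtain ⟨ρ, hρ⟩ : ∃ ρ : ZMod m,
    ρ = ((ArithmeticFunction.cardFactors a.natAbs + 2 * j : ℕ) : ZMod m) := ⟨_, rfl⟩
  rw [← hρ]
  obtain ⟨g, hg⟩ : ∃ g : ZMod m,
    g = ((ArithmeticFunction.cardFactors a.natAbs + j + 2 : ℕ) : ZMod m) := ⟨_, rfl⟩
  have hg2 : 2 * g - 2 = ρ + ((Om (4 * a) : ℕ) : ZMod m) := by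
    have h1 : Om (4 * a) = 2 + ArithmeticFunction.cardFactors a.natAbs := by
      have e1 : (4 * a : ℤ) = ((2 : ℕ) : ℤ) * (((2 : ℕ) : ℤ) * a) := by push_cast; ring
      rw [e1, Om_mul (by norm_num) (mul_ne_zero (by norm_num) ha.ne'), Om_mul (by norm_num) ha.ne',
        Om_prime Nat.prime_two]
      unfold Om
      omega
    rw [h1, hg, hρ]
    push_cast
    ring
  obtain ⟨Y, hCT⟩ := hct m hme hm K0 κ R hK0pos hκ hRpos hRK y1 g g (g + 1)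
  obtain ⟨D, hD⟩ : ∃ D : ℕ, D = 2 * (Y + 1) + R + K0 := ⟨_, rfl⟩
  obtain ⟨E, hE⟩ : ∃ E : ℕ, E = Y ^ 2 + Δ.natAbs + 1 := ⟨_, rfl⟩
  obtain ⟨Q, hQ⟩ : ∃ Q : ℕ, Q = (Nat.factorial D) ^ E := ⟨_, rfl⟩
  have hE0 : E ≠ 0 := by omega
  have hQpos : 0 < Q := by rw [hQ]; positivity
  have hdvdQ : ∀ x : ℕ, 0 < x → x ≤ D → x ∣ Q := by
    intro x hx hxD
    rw [hQ]
    exact (Nat.dvd_factorial hx hxD).trans (dvd_pow_self _ hE0)
  have hK0Q : K0 ∣ Q := hdvdQ _ hK0pos (by omega)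
  obtain ⟨N0, hN0⟩ := Pool.Agent.Lib.QuadThree.sieve_asym D
  exact asym_abs D (2 * (D * E)) Q hQpos (1 + |(Δ : ℝ)|) (4 * ((2 * Q + Y : ℕ) : ℝ) ^ 2)
    ((((Y + 1) * (Y + 1) * 2 ^ Om (4 * a) : ℕ) : ℝ)) (by linarith [abs_nonneg (Δ : ℝ)]) (by
      have h1 : (1 : ℝ) ≤ ((2 * Q + Y : ℕ) : ℝ) := by
        have : 1 ≤ 2 * Q + Y := by omega
        exact_mod_cast this
      nlinarith) (by
      have : 0 < (Y + 1) * (Y + 1) * 2 ^ Om (4 * a) := by positivity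
      exact_mod_cast this)
    (Y + 2 + Δ.natAbs + 2 * a.natAbs + b.natAbs + D + 5)
    (fun B N => (goodF a b c m ρ 0 1 B N).card)
    ⟨N0, by
      intro ν hν K hK N hN B hB
      apply countE a b c ha Δ hΔdef hsq m ρ K0 κ Y Q R y1 D E g hCT
        (fun p hp hmod => hmod.elim (hroot2 p hp) (hroot1 p hp))
        (fun p hp hmod => hroot2 p hp (hmod.of_dvd hK0Q))
        hR (hdvdQ R hRpos (by omega)) hRK hκ haκ hy1 hg2 hQpos (by omega) (by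
          have : E < 2 ^ E := Nat.lt_two_pow_self
          omega)
        (fun p hp hpD => by
          rw [hQ]
          exact pow_dvd_pow_of_dvd (Nat.dvd_factorial hp.pos hpD) E)
        (fun p hp hpD hd => by
          rw [hQ] at hd
          have := hp.dvd_of_dvd_pow hd
          rw [hp.dvd_factorial] at this
          omega) N0 hN0 ν hν K hK N (fun k hk => by
          have := hN k hk
          exact_mod_cast this) B (fun μ hμ => by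
          apply hB μ
          have h1 : ((((2 : ℤ) ^ (2 ^ ν)) ^ μ : ℤ) : ℝ) ≤ ((((1 + |Δ|) * (N : ℤ) ^ 2) ^ 2 : ℤ) : ℝ) := by
            exact_mod_cast hμ
          push_cast at h1
          exact h1)⟩

theorem finE (h : StCTE) (hk : StKap) : StFinalE := by
  intro a b c ha hab hsq m hm j
  obtain ⟨C, hC⟩ := finE_even h hk a b c ha hab hsq (2 * m) (even_two_mul m) (by omega) j
  refine ⟨C, ?_⟩
  intro ε hε hε1
  obtain ⟨N1, hN1⟩ := hC ε hε hε1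
  refine ⟨N1, ?_⟩
  intro N hN
  refine (hN1 N hN).trans ?_
  have hsub : goodF a b c (2 * m)
      ((ArithmeticFunction.cardFactors a.natAbs + 2 * j : ℕ) : ZMod (2 * m)) 0 1
        ⌊(C : ℝ) / ε⌋₊ N ⊆ ((Finset.Icc 1 N).filter
      (fun t : ℕ => 0 < a * (t : ℤ) ^ 2 + b * t + c ∧
        (ArithmeticFunction.cardFactors (a * (t : ℤ) ^ 2 + b * t + c).natAbs : ℝ) ≤ C / ε ∧
        ((ArithmeticFunction.cardFactors (a * (t : ℤ) ^ 2 + b * t + c).natAbs : ℕ) : ZMod m)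
          = ((ArithmeticFunction.cardFactors a.natAbs + 2 * j : ℕ) : ZMod m))) := by
    intro t ht
    unfold goodF at ht
    rw [Finset.mem_filter] at ht ⊢
    obtain ⟨h1, _, h3, h4, h5⟩ := ht
    refine ⟨h1, h3, ?_, ?_⟩
    · have h6 : (0 : ℝ) ≤ (C : ℝ) / ε := by positivity
      exact (Nat.le_floor_iff h6).1 h4
    · rw [ZMod.natCast_eq_natCast_iff] at h5 ⊢
      exact h5.of_dvd ⟨2, by ring⟩
  exact_mod_cast Finset.card_le_card hsub

end Pool.Agent.MP_a17b09_nt.OM
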