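import Pool.Agent.Lib.MP_a17b09_nt.OE.Stmts2

/-!
The residue class used for the large prime factor of `k`: Chinese remainder theorem and quadratic
reciprocity for the Jacobi symbol.
-/

set_option autoImplicit false

namespace Pool.Agent.MP_a17b09_nt.OM

namespace KapAux

theorem root_of_jac (Δ : ℤ) (p : ℕ) (hp : p.Prime) (h : jacobiSym Δ p = 1) :
    ∃ ρ : ℤ, (p : ℤ) ∣ Gf Δ ρ := by
  have hF := Fact.mk hp
  rw [← jacobiSym.legendreSym.to_jacobiSym] at h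
  have hΔ0 : (Δ : ZMod p) ≠ 0 := by
    intro h0
    have := (legendreSym.eq_zero_iff p Δ).2 h0
    rw [h] at this
    exact one_ne_zero this
  obtain ⟨y, hy⟩ := (legendreSym.eq_one_iff p hΔ0).1 h
  obtain ⟨r, hr⟩ := ZMod.intCast_surjective y
  refine ⟨r, ?_⟩
  apply (ZMod.intCast_zmod_eq_zero_iff_dvd _ _).1
  rw [Gf_eq]
  push_cast
  rw [hr, hy]
  ring

theorem jac_one (Δ : ℤ) (hΔ : Δ ≠ 0) (p : ℕ) (hodd : Odd p)
    (hmod : p ≡ 1 [MOD 4 * Δ.natAbs]) : jacobiSym Δ p = 1 := by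
  have hpos : 0 < Δ.natAbs := Int.natAbs_pos.2 hΔ
  have h1 : p % (4 * Δ.natAbs) = 1 := by
    have : 1 % (4 * Δ.natAbs) = 1 := Nat.mod_eq_of_lt (by omega)
    rw [← this]; exact hmod
  rw [jacobiSym.mod_right Δ hodd, h1, jacobiSym.one_right]

theorem jac_nat_one (n p : ℕ) (hmod : p ≡ 1 [MOD n]) :
    jacobiSym (p : ℤ) n = 1 := by
  have h1 : (p : ℤ) % (n : ℤ) = (1 : ℤ) % (n : ℤ) := by
    exact_mod_cast hmod
  rw [jacobiSym.mod_left, h1, ← jacobiSym.mod_left, jacobiSym.one_left]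

theorem jac_one' (Δ : ℤ) (hΔ : Δ % 4 = 1) (p : ℕ) (hodd : Odd p)
    (hmod : p ≡ 1 [MOD Δ.natAbs]) : jacobiSym Δ p = 1 := by
  rcases le_total 0 Δ with h0 | h0
  · obtain ⟨n, rfl⟩ := Int.eq_ofNat_of_zero_le h0
    have h4 : n % 4 = 1 := by omega
    rw [jacobiSym.quadratic_reciprocity_one_mod_four h4 hodd]
    exact jac_nat_one n p (by simpa using hmod)
  · obtain ⟨n, hn⟩ := Int.eq_ofNat_of_zero_le (neg_nonneg.2 h0)
    have hΔn : Δ = -(n : ℤ) := by omega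
    have hn4 : n % 4 = 3 := by omega
    have hnodd : Odd n := Nat.odd_iff.2 (by omega)
    have hmod' : p ≡ 1 [MOD n] := by
      have : Δ.natAbs = n := by omega
      rwa [this] at hmod
    have h1 := jac_nat_one n p hmod'
    rw [hΔn, jacobiSym.neg _ hodd]
    have hp4 : p % 4 = 1 ∨ p % 4 = 3 := by
      have := Nat.odd_iff.1 hodd
      omega
    rcases hp4 with hp4 | hp4
    · rw [jacobiSym.quadratic_reciprocity_one_mod_four' hnodd hp4, h1,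
        ZMod.χ₄_nat_one_mod_four hp4]
      norm_num
    · rw [jacobiSym.quadratic_reciprocity_three_mod_four hn4 hp4, h1,
        ZMod.χ₄_nat_three_mod_four hp4]
      norm_num

/-- a natural number in given residue classes -/
theorem crt_nat (m n : ℕ) (hn : 0 < n) (hmn : m.Coprime n) (x : ℤ) :
    ∃ κ : ℕ, κ ≡ 1 [MOD m] ∧ (n : ℤ) ∣ (κ : ℤ) - x := by
  have hn0 : (n : ℤ) ≠ 0 := by exact_mod_cast hn.ne'
  obtain ⟨κ, h1, h2⟩ := Nat.chineseRemainder hmn 1 (x % (n : ℤ)).toNat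
  refine ⟨κ, h1, ?_⟩
  have h3 : ((x % (n : ℤ)).toNat : ℤ) = x % (n : ℤ) :=
    Int.toNat_of_nonneg (Int.emod_nonneg _ hn0)
  have h4 : (κ : ℤ) ≡ x % (n : ℤ) [ZMOD (n : ℤ)] := by
    rw [← h3]
    exact (Int.natCast_modEq_iff).2 h2
  have h5 : (κ : ℤ) ≡ x [ZMOD (n : ℤ)] := h4.trans (Int.mod_modEq _ _)
  exact (Int.modEq_iff_dvd.1 h5.symm)

theorem coprime_of_modEq_one (κ m : ℕ) (h : κ ≡ 1 [MOD m]) : κ.Coprime m := by
  have : Nat.gcd κ m = Nat.gcd 1 m := h.gcd_eq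
  rw [Nat.Coprime, this, Nat.gcd_one_left]

theorem coprime_of_dvd_add (κ : ℕ) (a b : ℤ) (hab : IsCoprime a b) (h : a ∣ (κ : ℤ) + b) :
    κ.Coprime a.natAbs := by
  obtain ⟨k, hk⟩ := h
  have h1 : IsCoprime a (κ : ℤ) := by
    have h2 : (κ : ℤ) = -b + a * k := by linarith
    rw [h2]
    exact (hab.neg_right).add_mul_left_right k
  have h3 := Int.isCoprime_iff_gcd_eq_one.1 h1.symm
  exact h3

theorem int_modEq_neg (κ : ℕ) (a b : ℤ) (n : ℕ) (han : a ∣ (n : ℤ))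
    (h : (n : ℤ) ∣ (κ : ℤ) - (-b)) : a ∣ (κ : ℤ) + b := by
  have := han.trans h
  rwa [sub_neg_eq_add] at this

theorem main (a b c : ℤ) (ha : 0 < a) (hab : IsCoprime a b) (hΔ : b ^ 2 - 4 * a * c ≠ 0) :
    ∃ κ K0 : ℕ, 0 < K0 ∧ κ.Coprime K0 ∧ (2 * a) ∣ (K0 : ℤ) ∧ a ∣ (κ : ℤ) + b ∧
      (∀ p : ℕ, p.Prime → p ≡ κ [MOD K0] → ∃ ρ : ℤ, (p : ℤ) ∣ Gf (b ^ 2 - 4 * a * c) ρ) ∧
      (∀ p : ℕ, p.Prime → p ≡ 1 [MOD K0] → ∃ ρ : ℤ, (p : ℤ) ∣ Gf (b ^ 2 - 4 * a * c) ρ) := by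
  obtain ⟨Δ, hΔdef⟩ : ∃ Δ, Δ = b ^ 2 - 4 * a * c := ⟨_, rfl⟩
  rw [← hΔdef] at hΔ ⊢
  have hpos : 0 < Δ.natAbs := Int.natAbs_pos.2 hΔ
  have hapos : 0 < a.natAbs := Int.natAbs_pos.2 ha.ne'
  have hanat : (a.natAbs : ℤ) = a := by omega
  -- `a` and `Δ` are coprime
  have haΔ : IsCoprime a Δ := by
    have h1 : IsCoprime a (b ^ 2) := hab.pow_right
    have h2 : Δ = b ^ 2 + a * (-(4 * c)) := by rw [hΔdef]; ring
    rw [h2]
    exact h1.add_mul_left_right _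
  have haΔ' : Nat.Coprime a.natAbs Δ.natAbs := Int.isCoprime_iff_gcd_eq_one.1 haΔ
  rcases Int.even_or_odd a with hev | hod
  · -- `a` even
    have h2a : (2 : ℤ) ∣ a := hev.two_dvd
    have hbodd : ¬ (2 : ℤ) ∣ b := by
      intro hb
      have := (Int.isCoprime_iff_gcd_eq_one.1 hab)
      have h3 : (2 : ℤ) ∣ (Int.gcd a b : ℤ) := Int.dvd_coe_gcd h2a hb
      rw [this] at h3
      norm_num at h3
    have hb2 : b ^ 2 % 4 = 1 := by
      have hb1 : b % 2 = 1 := by omega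
      have hb4 : b % 4 = 1 ∨ b % 4 = 3 := by omega
      rcases hb4 with h | h <;> simp [pow_two, Int.mul_emod, h]
    have hΔ4 : Δ % 4 = 1 := by
      have : Δ = b ^ 2 - 4 * (a * c) := by rw [hΔdef]; ring
      omega
    have hcop : Nat.Coprime Δ.natAbs (2 * a.natAbs) := by
      have h1 : Nat.Coprime Δ.natAbs 2 := by
        rw [Nat.coprime_comm, Nat.coprime_two_left, Nat.odd_iff]
        omega
      exact Nat.Coprime.mul_right h1 haΔ'.symm
    obtain ⟨κ, hκ1, hκ2⟩ := crt_nat Δ.natAbs (2 * a.natAbs) (by omega) hcop (-b)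
    have hdvd : a ∣ (κ : ℤ) + b := int_modEq_neg κ a b (2 * a.natAbs)
      ⟨2, by rw [Nat.cast_mul, hanat]; push_cast; ring⟩ hκ2
    have hκodd : Odd κ := by
      have h2 : (2 : ℤ) ∣ (κ : ℤ) - (-b) :=
        dvd_trans ⟨(a.natAbs : ℤ), by push_cast; ring⟩ hκ2
      rw [Nat.odd_iff]
      omega
    have hroot : ∀ p : ℕ, p.Prime → Odd p → p ≡ 1 [MOD Δ.natAbs] →
        ∃ ρ : ℤ, (p : ℤ) ∣ Gf Δ ρ := fun p hp ho hm =>
      root_of_jac Δ p hp (jac_one' Δ hΔ4 p ho hm)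
    refine ⟨κ, 2 * a.natAbs * Δ.natAbs, by positivity, ?_, ?_, hdvd, ?_, ?_⟩
    · refine Nat.Coprime.mul_right (Nat.Coprime.mul_right ?_ ?_) ?_
      · exact (Nat.coprime_two_right).2 hκodd
      · exact coprime_of_dvd_add κ a b hab hdvd
      · exact coprime_of_modEq_one κ _ hκ1
    · refine ⟨(Δ.natAbs : ℤ), ?_⟩
      rw [Nat.cast_mul, Nat.cast_mul, hanat]
      push_cast
      ring
    · intro p hp hm
      apply hroot p hp
      · have h2 : p ≡ κ [MOD 2] := hm.of_dvd ⟨a.natAbs * Δ.natAbs, by ring⟩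
        rw [Nat.odd_iff] at hκodd ⊢
        rw [← hκodd]
        exact h2
      · exact (hm.of_dvd ⟨2 * a.natAbs, by ring⟩).trans hκ1
    · intro p hp hm
      apply hroot p hp
      · have h2 : p ≡ 1 [MOD 2] := hm.of_dvd ⟨a.natAbs * Δ.natAbs, by ring⟩
        rw [Nat.odd_iff]
        exact h2
      · exact hm.of_dvd ⟨2 * a.natAbs, by ring⟩
  · -- `a` odd
    have hcop : Nat.Coprime (16 * Δ.natAbs) a.natAbs := by
      refine Nat.Coprime.mul_left ?_ haΔ'.symm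
      have h1 : Nat.Coprime 2 a.natAbs := by
        rw [Nat.coprime_two_left, Nat.odd_iff]
        have := Int.odd_iff.1 hod
        omega
      have : (16 : ℕ) = 2 ^ 4 := by norm_num
      rw [this]
      exact Nat.Coprime.pow_left 4 h1
    obtain ⟨κ, hκ1, hκ2⟩ := crt_nat (16 * Δ.natAbs) a.natAbs hapos hcop (-b)
    have hdvd : a ∣ (κ : ℤ) + b := int_modEq_neg κ a b a.natAbs (by rw [hanat]) hκ2
    have hκodd : Odd κ := by
      have h2 : κ ≡ 1 [MOD 2] := hκ1.of_dvd ⟨8 * Δ.natAbs, by ring⟩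
      rw [Nat.odd_iff]
      exact h2
    have hroot : ∀ p : ℕ, p.Prime → p ≡ 1 [MOD 16 * Δ.natAbs] →
        ∃ ρ : ℤ, (p : ℤ) ∣ Gf Δ ρ := by
      intro p hp hm
      have ho : Odd p := by
        have h2 : p ≡ 1 [MOD 2] := hm.of_dvd ⟨8 * Δ.natAbs, by ring⟩
        rw [Nat.odd_iff]
        exact h2
      exact root_of_jac Δ p hp (jac_one Δ hΔ p ho (hm.of_dvd ⟨4, by ring⟩))
    refine ⟨κ, 2 * a.natAbs * (16 * Δ.natAbs), by positivity, ?_, ?_, hdvd, ?_, ?_⟩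
    · refine Nat.Coprime.mul_right (Nat.Coprime.mul_right ?_ ?_) ?_
      · exact (Nat.coprime_two_right).2 hκodd
      · exact coprime_of_dvd_add κ a b hab hdvd
      · exact coprime_of_modEq_one κ _ hκ1
    · refine ⟨16 * (Δ.natAbs : ℤ), ?_⟩
      rw [Nat.cast_mul, Nat.cast_mul, Nat.cast_mul, hanat]
      push_cast
      ring
    · intro p hp hm
      apply hroot p hp
      exact (hm.of_dvd ⟨2 * a.natAbs, by ring⟩).trans hκ1
    · intro p hp hm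
      apply hroot p hp
      exact hm.of_dvd ⟨2 * a.natAbs, by ring⟩

end KapAux

theorem kap : StKap := by
  intro a b c ha hab hΔ
  exact KapAux.main a b c ha hab hΔ

end Pool.Agent.MP_a17b09_nt.OM
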