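import Pool.Agent.Lib.MP_325d88_nt.Minor5
import Pool.Agent.Lib.MP_325d88_nt.PNTAP
import Pool.Agent.Lib.MP_a17b09_nt.OE.Stmts2

/-!
Exponential sums over the primes `q ≡ k0 mod K` in `(2^e, 2^(e+1)]` on minor arcs.
-/

set_option autoImplicit false

open Filter Topology Finset
open Pool.Agent.Lib.MP_325d88_nt (ee nd norm_ee ee_add ee_zero ee_int ee_nat ee_nat_mul ee_neg
  nd_nonneg nd_mul_le nd_add_int nd_le_half minor_primes)

namespace Pool.Agent.MP_a17b09_nt.OM

/-- lower bound for the number of primes -/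
theorem card_QC_lower (K k0 : ℕ) (hK : 0 < K) (hk0 : k0.Coprime K) : ∃ c : ℝ, 0 < c ∧ ∃ e0 : ℕ, 0 < e0 ∧ ∀ e : ℕ, e0 ≤ e →
    c * (2 ^ e / e) ≤ ((QC K k0 e).card : ℝ) := by
  have h := Pool.Agent.MP_325d88_nt.pnt_ap K hK k0 hk0
  set c0 : ℝ := 1 / (Nat.totient K : ℝ) with hc0
  have hc0p : 0 < c0 := by
    have : 0 < Nat.totient K := Nat.totient_pos.mpr hK
    positivity
  have hpow : Tendsto (fun e : ℕ => 2 ^ e) atTop atTop :=
    tendsto_pow_atTop_atTop_of_one_lt (by norm_num)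
  have h1 := h.comp hpow
  have h2 : ∀ᶠ e : ℕ in atTop, (((Finset.range (2 ^ e + 1)).filter
      (fun p => p.Prime ∧ p ≡ k0 [MOD K])).card : ℝ) * Real.log ((2 ^ e : ℕ) : ℝ) / ((2 ^ e : ℕ) : ℝ) <
      9 / 8 * c0 := h1.eventually (gt_mem_nhds (by linarith))
  have h3 : ∀ᶠ e : ℕ in atTop, 7 / 8 * c0 < (((Finset.range (2 ^ e + 1)).filter
      (fun p => p.Prime ∧ p ≡ k0 [MOD K])).card : ℝ) * Real.log ((2 ^ e : ℕ) : ℝ) / ((2 ^ e : ℕ) : ℝ) :=
    h1.eventually (lt_mem_nhds (by linarith))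
  obtain ⟨e0, he0⟩ := eventually_atTop.mp (h2.and h3)
  refine ⟨c0 / 4, by positivity, max e0 7, by positivity, fun e he => ?_⟩
  have he1 : e0 ≤ e := (le_max_left _ _).trans he
  have he7 : 7 ≤ e := (le_max_right _ _).trans he
  have a1 := (he0 e he1).1
  have a2 := (he0 (e + 1) (by omega)).2
  set A : ℝ := (((Finset.range (2 ^ e + 1)).filter
      (fun p => p.Prime ∧ p ≡ k0 [MOD K])).card : ℝ) with hA
  set B : ℝ := (((Finset.range (2 ^ (e + 1) + 1)).filter
      (fun p => p.Prime ∧ p ≡ k0 [MOD K])).card : ℝ) with hB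
  have hcard : ((QC K k0 e).card : ℝ) = B - A := by
    have : (QC K k0 e).card + ((Finset.range (2 ^ e + 1)).filter
      (fun p => p.Prime ∧ p ≡ k0 [MOD K])).card = ((Finset.range (2 ^ (e + 1) + 1)).filter
      (fun p => p.Prime ∧ p ≡ k0 [MOD K])).card := by
      rw [← Finset.card_union_of_disjoint]
      · congr 1
        ext q
        rw [mem_union, mem_QC, mem_filter, mem_filter, mem_range, mem_range]
        have : 2 ^ e ≤ 2 ^ (e + 1) := Nat.pow_le_pow_right (by norm_num) (by omega)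
        constructor
        · rintro (h | h)
          · exact ⟨by omega, h.2⟩
          · exact ⟨by omega, h.2⟩
        · rintro ⟨h, h'⟩
          by_cases hq : q < 2 ^ e + 1
          · exact Or.inr ⟨hq, h'⟩
          · exact Or.inl ⟨⟨by omega, by omega⟩, h'⟩
      · rw [Finset.disjoint_left]
        intro q hq hq'
        rw [mem_QC] at hq
        rw [mem_filter, mem_range] at hq'
        omega
    have h' : ((QC K k0 e).card : ℝ) + A = B := by
      rw [hA, hB]
      exact_mod_cast this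
    linarith
  have hl2 : 0 < Real.log 2 := Real.log_pos (by norm_num)
  have hl2' : Real.log 2 < 1 := by
    have := Real.log_two_lt_d9
    linarith
  have hlog : ∀ m : ℕ, Real.log ((2 ^ m : ℕ) : ℝ) = m * Real.log 2 := by
    intro m
    push_cast
    rw [Real.log_pow]
  rw [hlog] at a1 a2
  push_cast at a1 a2
  have he : (7 : ℝ) ≤ e := by exact_mod_cast he7
  have hp : (0 : ℝ) < 2 ^ e := by positivity
  rw [div_lt_iff₀ hp] at a1
  rw [lt_div_iff₀ (by positivity), pow_succ] at a2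
  rw [hcard]
  have b1 : A * e ≤ 9 / 8 * c0 * 2 ^ e / Real.log 2 := by
    rw [le_div_iff₀ hl2]
    linarith
  have b2 : 7 / 4 * c0 * 2 ^ e / Real.log 2 ≤ B * (e + 1) := by
    rw [div_le_iff₀ hl2]
    linarith
  set X : ℝ := c0 * 2 ^ e / Real.log 2 with hX
  have hX0 : c0 * 2 ^ e ≤ X := by
    rw [hX, le_div_iff₀ hl2]
    have : 0 < c0 * 2 ^ e := by positivity
    nlinarith
  have b1' : A * e ≤ 9 / 8 * X := by
    rw [hX]
    calc A * e ≤ _ := b1
      _ = _ := by ring
  have b2' : 7 / 4 * X ≤ B * (e + 1) := by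
    rw [hX]
    calc _ = 7 / 4 * c0 * 2 ^ e / Real.log 2 := by ring
      _ ≤ _ := b2
  have hB0 : 0 ≤ B := by positivity
  have b3 : 49 / 32 * X ≤ B * e := by
    have : B * (e + 1) ≤ B * e * (8 / 7) := by nlinarith
    linarith
  have hX1 : 0 ≤ X := by positivity
  have b4 : X / 4 ≤ (B - A) * e := by
    have : (B - A) * e = B * e - A * e := by ring
    rw [this]
    linarith
  rw [mul_div_assoc', div_le_iff₀ (by linarith)]
  linarith

/-- orthogonality of the characters `mod K` -/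
theorem orthC (K k0 : ℕ) (hK : 0 < K) (p : ℕ) :
    ∑ b ∈ range K, ee (((p : ℝ) - k0) * ((b : ℝ) / K)) =
      if p ≡ k0 [MOD K] then (K : ℂ) else 0 := by
  have hK' : (K : ℝ) ≠ 0 := by exact_mod_cast hK.ne'
  have h1 : ∀ b : ℕ, ee (((p : ℝ) - k0) * ((b : ℝ) / K)) = ee (((p : ℝ) - k0) / K) ^ b := by
    intro b
    rw [← ee_nat_mul]
    congr 1
    ring
  simp_rw [h1]
  have hmod : p ≡ k0 [MOD K] ↔ (K : ℤ) ∣ (p : ℤ) - k0 := by
    rw [Nat.ModEq.comm]
    exact Nat.modEq_iff_dvd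
  split_ifs with h
  · obtain ⟨c, hc⟩ := hmod.mp h
    have : ((p : ℝ) - k0) / K = ((c : ℤ) : ℝ) := by
      have h2 : (p : ℝ) - k0 = K * c := by exact_mod_cast hc
      rw [h2]
      field_simp
    rw [this, ee_int]
    simp
  · have hne : ee (((p : ℝ) - k0) / K) ≠ 1 := by
      intro h2
      unfold ee at h2
      rw [Complex.exp_eq_one_iff] at h2
      obtain ⟨c, hc⟩ := h2
      have h3 : ((p : ℝ) - k0) / K = c := by
        have h4 : ((2 * Real.pi * (((p : ℝ) - k0) / K) : ℝ) : ℂ) = ((2 * Real.pi * c : ℝ) : ℂ) := by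
          have h5 : ((2 * Real.pi * (((p : ℝ) - k0) / K) : ℝ) : ℂ) * Complex.I =
              ((2 * Real.pi * c : ℝ) : ℂ) * Complex.I := by
            rw [hc]
            push_cast
            ring
          exact mul_right_cancel₀ Complex.I_ne_zero h5
        have h6 := Complex.ofReal_injective h4
        have h7 : (0 : ℝ) < 2 * Real.pi := by positivity
        exact mul_left_cancel₀ h7.ne' h6
      rw [div_eq_iff hK'] at h3
      apply h
      rw [hmod]
      have h8 : (p : ℤ) - k0 = c * K := by exact_mod_cast h3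
      exact ⟨c, by rw [h8]; ring⟩
    rw [geom_sum_eq hne, ← ee_nat_mul]
    have : (K : ℝ) * (((p : ℝ) - k0) / K) = (((p : ℤ) - k0 : ℤ) : ℝ) := by
      push_cast
      field_simp
    rw [this, ee_int]
    simp

/-- exponential sums over `QC K k0 e` on the minor arcs -/
theorem minor_QC (K k0 : ℕ) (hK : 0 < K) (hk0 : k0.Coprime K) (n : ℕ) (hn : 0 < n) (κ : ℝ) (hκ : 0 < κ) :
    ∃ T e0 : ℕ, 0 < T ∧ ∀ e : ℕ, e0 ≤ e → 0 < (QC K k0 e).card ∧ ∀ θ : ℝ,
      (∀ t : ℕ, 1 ≤ t → t ≤ T → (T : ℝ) / 2 ^ e < nd (t * θ)) →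
      ‖∑ q ∈ QC K k0 e, ee (((n * q : ℕ) : ℝ) * θ)‖ ≤ κ * ((QC K k0 e).card : ℝ) := by
  obtain ⟨c, hc, e1, he1, hcard⟩ := card_QC_lower K k0 hK hk0
  have hl2 : 0 < Real.log 2 := Real.log_pos (by norm_num)
  set κ' : ℝ := κ * c * Real.log 2 / 3 with hκ'
  have hκ'p : 0 < κ' := by positivity
  obtain ⟨Q, N0, hQ, hm⟩ := minor_primes κ' hκ'p
  refine ⟨n * K * Q, max (max e1 N0) 1, by positivity, fun e he => ?_⟩
  have hee1 : e1 ≤ e := (le_max_left _ _).trans ((le_max_left _ _).trans he)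
  have heN : N0 ≤ e := (le_max_right _ _).trans ((le_max_left _ _).trans he)
  have he1' : 1 ≤ e := (le_max_right _ _).trans he
  have hep : (0 : ℝ) < e := by exact_mod_cast he1'
  have hcd := hcard e hee1
  have h2e : (0 : ℝ) < 2 ^ e := by positivity
  refine ⟨?_, fun θ hθ => ?_⟩
  · have : (0 : ℝ) < ((QC K k0 e).card : ℝ) := lt_of_lt_of_le (by positivity) hcd
    exact_mod_cast this
  have hlt : e < 2 ^ e := Nat.lt_two_pow_self
  -- the bound for each frequency
  have hb : ∀ b : ℕ, ‖∑ p ∈ (Finset.Ioc (2 ^ e) (2 ^ (e + 1))).filter Nat.Prime,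
      ee (p * (n * θ + b / K))‖ ≤ 3 * κ' * (2 ^ e / (e * Real.log 2)) := by
    intro b
    set ψ : ℝ := n * θ + b / K with hψ
    have hKψ : ∀ q : ℕ, nd (((n * K * q : ℕ) : ℝ) * θ) ≤ K * nd (q * ψ) := by
      intro q
      have h1 : ((n * K * q : ℕ) : ℝ) * θ = (K : ℝ) * (q * ψ) + ((-((q * b : ℕ) : ℤ) : ℤ) : ℝ) := by
        rw [hψ]
        push_cast
        have : (K : ℝ) ≠ 0 := by exact_mod_cast hK.ne'
        field_simp
        ring
      rw [h1, nd_add_int]
      exact nd_mul_le K _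
    have hmin : ∀ q : ℕ, 1 ≤ q → q ≤ Q → (Q : ℝ) / 2 ^ e < nd (q * ψ) := by
      intro q hq1 hq2
      have h1 := hθ (n * K * q) (by
        have : 0 < n * K * q := by positivity
        omega) (Nat.mul_le_mul_left _ hq2)
      have h2 := lt_of_lt_of_le h1 (hKψ q)
      have hK' : (0 : ℝ) < K := by exact_mod_cast hK
      have hn' : (1 : ℝ) ≤ n := by exact_mod_cast hn
      have hQ' : (0 : ℝ) < Q := by exact_mod_cast hQ
      have h3 : (K : ℝ) * (Q / 2 ^ e) ≤ ((n * K * Q : ℕ) : ℝ) / 2 ^ e := by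
        push_cast
        rw [mul_div_assoc']
        apply div_le_div_of_nonneg_right _ h2e.le
        have : (0 : ℝ) < K * Q := by positivity
        nlinarith
      exact lt_of_mul_lt_mul_left (lt_of_le_of_lt h3 h2) hK'.le
    have hN : ∀ m : ℕ, e ≤ m → ‖∑ p ∈ (Finset.range (2 ^ m + 1)).filter Nat.Prime, ee (p * ψ)‖ ≤
        κ' * (2 ^ m / (m * Real.log 2)) := by
      intro m hm'
      have hlt' : m < 2 ^ m := Nat.lt_two_pow_self
      have h1 := hm (2 ^ m) (by omega) ψ (by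
        intro q hq1 hq2
        refine lt_of_le_of_lt ?_ (hmin q hq1 hq2)
        push_cast
        apply div_le_div_of_nonneg_left (by positivity) h2e
        exact pow_le_pow_right₀ (by norm_num) hm')
      push_cast at h1
      rw [Real.log_pow] at h1
      exact h1
    have hsplit : ∑ p ∈ (Finset.Ioc (2 ^ e) (2 ^ (e + 1))).filter Nat.Prime, ee (p * ψ) =
        ∑ p ∈ (Finset.range (2 ^ (e + 1) + 1)).filter Nat.Prime, ee (p * ψ) -
        ∑ p ∈ (Finset.range (2 ^ e + 1)).filter Nat.Prime, ee (p * ψ) := by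
      rw [eq_sub_iff_add_eq, ← Finset.sum_union]
      · apply Finset.sum_congr _ fun _ _ => rfl
        ext q
        rw [mem_union, mem_filter, mem_filter, mem_filter, mem_Ioc, mem_range, mem_range]
        have : 2 ^ e ≤ 2 ^ (e + 1) := Nat.pow_le_pow_right (by norm_num) (by omega)
        constructor
        · rintro (h | h)
          · exact ⟨by omega, h.2⟩
          · exact ⟨by omega, h.2⟩
        · rintro ⟨h, h'⟩
          by_cases hq : q < 2 ^ e + 1
          · exact Or.inr ⟨hq, h'⟩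
          · exact Or.inl ⟨⟨by omega, by omega⟩, h'⟩
      · rw [Finset.disjoint_left]
        intro q hq hq'
        rw [mem_filter, mem_Ioc] at hq
        rw [mem_filter, mem_range] at hq'
        omega
    rw [hsplit]
    have g1 := hN e le_rfl
    have g2 := hN (e + 1) (by omega)
    have g3 : κ' * (2 ^ (e + 1) / (((e + 1 : ℕ) : ℝ) * Real.log 2)) ≤
        2 * κ' * (2 ^ e / (e * Real.log 2)) := by
      rw [pow_succ]
      have : (2 : ℝ) ^ e * 2 / (((e + 1 : ℕ) : ℝ) * Real.log 2) ≤ 2 * (2 ^ e / (e * Real.log 2)) := by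
        rw [mul_comm (2 ^ e : ℝ) 2, mul_div_assoc]
        apply mul_le_mul_of_nonneg_left _ (by norm_num)
        apply div_le_div_of_nonneg_left (by positivity) (by positivity)
        push_cast
        nlinarith
      calc _ ≤ κ' * (2 * (2 ^ e / (e * Real.log 2))) := mul_le_mul_of_nonneg_left this hκ'p.le
        _ = _ := by ring
    calc _ ≤ _ := norm_sub_le _ _
      _ ≤ 2 * κ' * (2 ^ e / (e * Real.log 2)) + κ' * (2 ^ e / (e * Real.log 2)) :=
          add_le_add (g2.trans g3) g1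
      _ = _ := by ring
  -- orthogonality
  have hKc : (K : ℂ) ≠ 0 := by exact_mod_cast hK.ne'
  have hK' : (0 : ℝ) < K := by exact_mod_cast hK
  have horth : (K : ℂ) * ∑ q ∈ QC K k0 e, ee (((n * q : ℕ) : ℝ) * θ) =
      ∑ b ∈ range K, ee (-((k0 : ℝ) * ((b : ℝ) / K))) *
        ∑ p ∈ (Finset.Ioc (2 ^ e) (2 ^ (e + 1))).filter Nat.Prime, ee (p * (n * θ + b / K)) := by
    have h1 : QC K k0 e = ((Finset.Ioc (2 ^ e) (2 ^ (e + 1))).filter Nat.Prime).filter
        (fun q => q ≡ k0 [MOD K]) := by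
      unfold QC
      rw [Finset.filter_filter]
    rw [h1, Finset.sum_filter, Finset.mul_sum]
    simp_rw [Finset.mul_sum]
    rw [Finset.sum_comm]
    apply Finset.sum_congr rfl
    intro p hp
    have h2 := orthC K k0 hK p
    have h3 : (K : ℂ) * (if p ≡ k0 [MOD K] then ee (((n * p : ℕ) : ℝ) * θ) else 0) =
        (if p ≡ k0 [MOD K] then (K : ℂ) else 0) * ee (((n * p : ℕ) : ℝ) * θ) := by
      split_ifs <;> ring
    rw [h3, ← h2, Finset.sum_mul]
    apply Finset.sum_congr rfl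
    intro b _
    rw [← ee_add, ← ee_add]
    congr 1
    push_cast
    ring
  have hfin : (K : ℝ) * ‖∑ q ∈ QC K k0 e, ee (((n * q : ℕ) : ℝ) * θ)‖ ≤
      K * (3 * κ' * (2 ^ e / (e * Real.log 2))) := by
    calc (K : ℝ) * ‖∑ q ∈ QC K k0 e, ee (((n * q : ℕ) : ℝ) * θ)‖ =
        ‖(K : ℂ) * ∑ q ∈ QC K k0 e, ee (((n * q : ℕ) : ℝ) * θ)‖ := by
          rw [norm_mul, Complex.norm_natCast]
      _ ≤ ∑ b ∈ range K, ‖ee (-((k0 : ℝ) * ((b : ℝ) / K))) *
        ∑ p ∈ (Finset.Ioc (2 ^ e) (2 ^ (e + 1))).filter Nat.Prime, ee (p * (n * θ + b / K))‖ := by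
          rw [horth]
          exact norm_sum_le _ _
      _ ≤ ∑ b ∈ range K, 3 * κ' * (2 ^ e / (e * Real.log 2)) := by
          apply Finset.sum_le_sum
          intro b _
          rw [norm_mul, norm_ee, one_mul]
          exact hb b
      _ = _ := by simp
  have h4 := le_of_mul_le_mul_left hfin hK'
  refine h4.trans ?_
  calc 3 * κ' * (2 ^ e / (e * Real.log 2)) = κ * (c * (2 ^ e / e)) := by
        rw [hκ']
        field_simp
    _ ≤ κ * ((QC K k0 e).card : ℝ) := mul_le_mul_of_nonneg_left hcd hκ.le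

end Pool.Agent.MP_a17b09_nt.OM
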