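import Pool.Agent.Lib.MP_a17b09_nt.OM.Minor
import Pool.Agent.Lib.MP_a17b09_nt.OE.MinorNTC

/-!
Averages over primes in a residue class kill the part that is orthogonal to the rational spectrum.
-/

set_option autoImplicit false

open Filter Topology Polynomial
open Pool.Agent.Lib.MP_325d88_nt (ee nd norm_ee ee_add ee_zero ee_int ee_nat ee_nat_mul ee_neg
  nd_nonneg nd_mul_le nd_add_int nd_le_half)

namespace Pool.Agent.MP_a17b09_nt.OM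

private lemma mn_kap52 {ε x κ : ℝ} (hε : 0 < ε) (hx : 0 ≤ x)
    (hκ : κ = ε / (2 * (x + 1))) : κ * x ≤ ε / 2 := by
  have h1 : 0 < 2 * (x + 1) := by linarith
  rw [hκ, div_mul_eq_mul_div, div_le_div_iff₀ h1 two_pos]
  linarith

private lemma mn_sq52 {κ x ε : ℝ} (h0 : 0 ≤ κ * x) (h : κ * x ≤ ε / 2) :
    κ ^ 2 * x ^ 2 ≤ ε ^ 2 / 4 := by
  calc κ ^ 2 * x ^ 2 = (κ * x) ^ 2 := (mul_pow _ _ _).symm
    _ ≤ (ε / 2) ^ 2 := pow_le_pow_left₀ h0 h 2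
    _ = ε ^ 2 / 4 := by ring

private lemma mn_fin52 {A F S ε : ℝ} (hε : 0 < ε) (h0 : A ^ 2 ≤ F + S) (h8 : F ≤ ε ^ 2 / 4)
    (h5 : S < ε ^ 2 / 4) (hcon : ε ≤ A) : False := by
  have h11 := pow_le_pow_left₀ hε.le hcon 2
  have h12 : 0 < ε ^ 2 := pow_pos hε 2
  linarith

private lemma mn_ex52 {p g S κ : ℝ} (h1 : 1 / 2 ≤ g) (h2 : g ^ 2 ≤ S) (h4 : p ^ 2 ≤ 1) :
    p ^ 2 ≤ κ ^ 2 + 4 * S := by
  have h5 : (1 / 2 : ℝ) ^ 2 ≤ g ^ 2 := pow_le_pow_left₀ (by norm_num) h1 2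
  have h6 := sq_nonneg κ
  linarith

theorem minorC : StMinorC := by
  intro H _ _ _ U f hU K k0 hK hk0 n hn
  obtain ⟨a, ha, haU⟩ : ∃ a : H →L[ℂ] H, a ∈ unitary (H →L[ℂ] H) ∧ ∀ v, a v = U v :=
    ⟨_, (Unitary.linearIsometryEquiv.symm U).2, fun v => rfl⟩
  have hpow : ∀ (m : ℕ) (v : H), (a ^ m) v = (U ^ m) v := by
    intro m
    induction m with
    | zero => intro v; simp
    | succ m ih =>
      intro v
      rw [pow_succ, pow_succ, mul_apply_eq_comp, ih, haU]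
      rfl
  have hnorm : ∀ m : ℕ, ‖a ^ m‖ ≤ 1 := by
    intro m
    apply ContinuousLinearMap.opNorm_le_bound _ zero_le_one
    intro v
    rw [hpow, LinearIsometryEquiv.norm_map, one_mul]
  rw [Metric.tendsto_atTop]
  intro ε hε
  obtain ⟨κ, hκ⟩ : ∃ κ : ℝ, κ = ε / (2 * (‖f‖ + 1)) := ⟨_, rfl⟩
  have hf0 := norm_nonneg f
  have hκp : 0 < κ := by
    rw [hκ]; exact div_pos hε (mul_pos two_pos (add_pos_of_nonneg_of_pos hf0 one_pos))
  obtain ⟨T, e0, hT, hmin⟩ := minor_QC K k0 hK hk0 n hn κ hκp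
  obtain ⟨s, hs⟩ : ∃ s : ℕ, 8 * T ≤ 2 ^ s := ⟨8 * T, Nat.lt_two_pow_self.le⟩
  -- the ergodic averages tend to zero
  have herg : ∀ t ∈ Finset.Icc 1 T, Tendsto (fun e : ℕ =>
      ‖((2 ^ (e - s) : ℕ) : ℂ)⁻¹ • ∑ i ∈ Finset.range (2 ^ (e - s)), (a ^ (t * i)) f‖) atTop (𝓝 0) := by
    intro t ht
    have ht1 : 0 < t := (Finset.mem_Icc.mp ht).1
    have h1 := erg (a ^ t) (hnorm t) f (by
      intro v hv
      rw [hpow] at hv
      exact hU t ht1 v hv)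
    have h2 : Tendsto (fun e : ℕ => 2 ^ (e - s)) atTop atTop :=
      (tendsto_pow_atTop_atTop_of_one_lt (by norm_num : 1 < 2)).comp (tendsto_sub_atTop_nat s)
    refine (h1.comp h2).congr fun e => ?_
    simp only [Function.comp]
    congr 2
    apply Finset.sum_congr rfl
    intro i _
    rw [pow_mul]
  have hsum : Tendsto (fun e : ℕ => 4 * ∑ t ∈ Finset.Icc 1 T,
      ‖((2 ^ (e - s) : ℕ) : ℂ)⁻¹ • ∑ i ∈ Finset.range (2 ^ (e - s)), (a ^ (t * i)) f‖ ^ 2)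
      atTop (𝓝 0) := by
    have h1 : Tendsto (fun e : ℕ => ∑ t ∈ Finset.Icc 1 T,
      ‖((2 ^ (e - s) : ℕ) : ℂ)⁻¹ • ∑ i ∈ Finset.range (2 ^ (e - s)), (a ^ (t * i)) f‖ ^ 2)
      atTop (𝓝 (∑ t ∈ Finset.Icc 1 T, 0)) := by
      apply tendsto_finsetSum
      intro t ht
      have := (herg t ht).pow 2
      simpa using this
    have h2 := h1.const_mul 4
    simpa using h2
  have hev : ∀ᶠ e : ℕ in atTop, 4 * ∑ t ∈ Finset.Icc 1 T,
      ‖((2 ^ (e - s) : ℕ) : ℂ)⁻¹ • ∑ i ∈ Finset.range (2 ^ (e - s)), (a ^ (t * i)) f‖ ^ 2 <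
      ε ^ 2 / 4 := hsum.eventually (gt_mem_nhds (div_pos (pow_pos hε 2) four_pos))
  obtain ⟨e1, he1⟩ := eventually_atTop.mp hev
  refine ⟨max (max e0 e1) s, fun e he => ?_⟩
  have hee0 : e0 ≤ e := (le_max_left _ _).trans ((le_max_left _ _).trans he)
  have hee1 : e1 ≤ e := (le_max_right _ _).trans ((le_max_left _ _).trans he)
  have hes : s ≤ e := (le_max_right _ _).trans he
  obtain ⟨hcard, hθ⟩ := hmin e hee0
  have hcard' : (0 : ℝ) < ((QC K k0 e).card : ℝ) := by exact_mod_cast hcard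
  -- polynomials
  obtain ⟨P, hP⟩ : ∃ P : ℂ[X], P = C (((QC K k0 e).card : ℂ)⁻¹) * ∑ q ∈ QC K k0 e, X ^ (n * q) :=
    ⟨_, rfl⟩
  obtain ⟨G, hG⟩ : ∃ G : ℕ → ℂ[X], G = fun t => C (((2 ^ (e - s) : ℕ) : ℂ)⁻¹) *
    ∑ i ∈ Finset.range (2 ^ (e - s)), X ^ (t * i) := ⟨_, rfl⟩
  have hPa : aeval a P f = ((QC K k0 e).card : ℂ)⁻¹ • ∑ q ∈ QC K k0 e, (a ^ (n * q)) f := by
    rw [hP, map_mul, map_sum, aeval_C, Algebra.algebraMap_eq_smul_one, smul_mul_assoc, one_mul,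
      smul_apply, sum_apply]
    congr 1
    apply Finset.sum_congr rfl
    intro q _
    rw [map_pow, aeval_X]
  have hGa : ∀ t, aeval a (G t) f = ((2 ^ (e - s) : ℕ) : ℂ)⁻¹ •
      ∑ i ∈ Finset.range (2 ^ (e - s)), (a ^ (t * i)) f := by
    intro t
    simp only [hG]
    rw [map_mul, map_sum, aeval_C, Algebra.algebraMap_eq_smul_one, smul_mul_assoc, one_mul,
      smul_apply, sum_apply]
    congr 1
    apply Finset.sum_congr rfl
    intro q _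
    rw [map_pow, aeval_X]
  have hineq := op_ineq a ha P (Finset.Icc 1 T) G κ (by
    intro z hz
    obtain ⟨θ, rfl⟩ := exists_ee z hz
    have hPz : P.eval (ee θ) = ((QC K k0 e).card : ℂ)⁻¹ * ∑ q ∈ QC K k0 e, ee θ ^ (n * q) := by
      rw [hP, eval_mul, eval_C, eval_finsetSum]
      simp
    have hGz : ∀ t, (G t).eval (ee θ) = ((2 ^ (e - s) : ℕ) : ℂ)⁻¹ *
        ∑ i ∈ Finset.range (2 ^ (e - s)), ee θ ^ (t * i) := by
      intro t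
      simp only [hG]
      rw [eval_mul, eval_C, eval_finsetSum]
      simp
    have hpos : 0 ≤ ∑ t ∈ Finset.Icc 1 T, ‖(G t).eval (ee θ)‖ ^ 2 :=
      Finset.sum_nonneg fun t _ => sq_nonneg _
    by_cases hc : ∀ t : ℕ, 1 ≤ t → t ≤ T → (T : ℝ) / 2 ^ e < nd (t * θ)
    · have h1 := hθ θ hc
      have h2 : ‖P.eval (ee θ)‖ ≤ κ := by
        rw [hPz, norm_mul, norm_inv, Complex.norm_natCast, inv_mul_eq_div, div_le_iff₀ hcard']
        simp_rw [← ee_nat_mul]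
        exact h1
      have h3 : ‖P.eval (ee θ)‖ ^ 2 ≤ κ ^ 2 := pow_le_pow_left₀ (norm_nonneg _) h2 2
      exact h3.trans (le_add_of_nonneg_right (mul_nonneg zero_le_four hpos))
    · push Not at hc
      obtain ⟨t, ht1, htT, ht⟩ := hc
      have h1 := exc e s T t hs hes θ ht
      rw [← hGz t] at h1
      have h2 : ‖(G t).eval (ee θ)‖ ^ 2 ≤ ∑ t ∈ Finset.Icc 1 T, ‖(G t).eval (ee θ)‖ ^ 2 :=
        Finset.single_le_sum (f := fun t => ‖(G t).eval (ee θ)‖ ^ 2)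
          (fun t _ => sq_nonneg _) (Finset.mem_Icc.mpr ⟨ht1, htT⟩)
      have h3 : ‖P.eval (ee θ)‖ ≤ 1 := by
        rw [hPz, norm_mul, norm_inv, Complex.norm_natCast, inv_mul_eq_div, div_le_iff₀ hcard']
        refine (norm_sum_le _ _).trans ?_
        simp [norm_ee]
      have h4 : ‖P.eval (ee θ)‖ ^ 2 ≤ 1 := pow_le_one₀ (norm_nonneg _) h3
      exact mn_ex52 h1 h2 h4) f
  rw [hPa] at hineq
  have h5 := he1 e hee1
  have h6 : ∑ t ∈ Finset.Icc 1 T, ‖aeval a (G t) f‖ ^ 2 = ∑ t ∈ Finset.Icc 1 T,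
      ‖((2 ^ (e - s) : ℕ) : ℂ)⁻¹ • ∑ i ∈ Finset.range (2 ^ (e - s)), (a ^ (t * i)) f‖ ^ 2 :=
    Finset.sum_congr rfl fun t _ => by rw [hGa]
  rw [h6] at hineq
  have h7 : κ * ‖f‖ ≤ ε / 2 := mn_kap52 hε hf0 hκ
  have h8 : κ ^ 2 * ‖f‖ ^ 2 ≤ ε ^ 2 / 4 := mn_sq52 (mul_nonneg hκp.le hf0) h7
  have h9 : ‖((QC K k0 e).card : ℂ)⁻¹ • ∑ q ∈ QC K k0 e, (a ^ (n * q)) f‖ =
      (1 / ((QC K k0 e).card : ℝ)) * ‖∑ q ∈ QC K k0 e, (U ^ (n * q)) f‖ := by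
    rw [norm_smul, norm_inv, Complex.norm_natCast, one_div]
    simp_rw [hpow]
  rw [h9] at hineq
  have h10 : 0 ≤ (1 / ((QC K k0 e).card : ℝ)) * ‖∑ q ∈ QC K k0 e, (U ^ (n * q)) f‖ :=
    mul_nonneg (one_div_nonneg.2 hcard'.le) (norm_nonneg _)
  rw [Real.dist_eq, sub_zero, abs_of_nonneg h10]
  by_contra hcon
  push Not at hcon
  exact mn_fin52 hε hineq h8 h5 hcon

end Pool.Agent.MP_a17b09_nt.OM
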