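import Pool.Agent.Lib.MP_a17b09_nt.OM.ED
import Pool.Agent.Lib.MP_a17b09_nt.OM.Pinsker
import Pool.Agent.Lib.MP_a17b09_nt.OE.DecoupleC
import Pool.Agent.Lib.MP_a17b09_nt.OE.MinorC
import Pool.Agent.Lib.MP_a17b09_nt.OE.CTE
import Pool.Agent.Lib.MP_a17b09_nt.OE.Kap
import Pool.Agent.Lib.MP_a17b09_nt.OE.FinE

set_option autoImplicit false

namespace Pool.Agent.MP_a17b09_nt.OM

theorem final_allE : StFinalE := finE (ct_fin_even (decoupleC ed pinsker) minorC) kap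

/-- the final theorem with the residue class given by a natural number of the right parity -/
theorem final_rho (a b c : ℤ) (ha : 0 < a) (hab : IsCoprime a b)
    (hD : ¬ IsSquare (b ^ 2 - 4 * a * c)) (m : ℕ) (hm : 0 < m) (ρ : ℕ)
    (hρ : ρ ≡ ArithmeticFunction.cardFactors a.natAbs [MOD 2]) :
    ∃ C : ℕ, ∀ ε : ℝ, 0 < ε → ε ≤ 1 / 2 → ∃ N₁ : ℕ, ∀ N : ℕ, N₁ ≤ N →
      (N : ℝ) ^ (1 - ε) ≤ (((Finset.Icc 1 N).filter (fun t : ℕ =>
        0 < a * (t : ℤ) ^ 2 + b * t + c ∧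
        (ArithmeticFunction.cardFactors (a * (t : ℤ) ^ 2 + b * t + c).natAbs : ℝ) ≤ C / ε ∧
        ArithmeticFunction.cardFactors (a * (t : ℤ) ^ 2 + b * t + c).natAbs ≡ ρ [MOD m])).card : ℝ) := by
  obtain ⟨w, hw⟩ : ∃ w : ℕ, w = ArithmeticFunction.cardFactors a.natAbs := ⟨_, rfl⟩
  rw [← hw] at hρ
  obtain ⟨j, hj⟩ : ∃ j : ℕ, w + 2 * j = ρ + 2 * (m * w) := by
    refine ⟨(ρ + 2 * (m * w) - w) / 2, ?_⟩
    have h1 : w ≤ m * w := Nat.le_mul_of_pos_left w hm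
    unfold Nat.ModEq at hρ
    omega
  obtain ⟨C, hC⟩ := final_allE a b c ha hab hD m hm j
  refine ⟨C, fun ε hε hε1 => ?_⟩
  obtain ⟨N₁, hN₁⟩ := hC ε hε hε1
  refine ⟨N₁, fun N hN => (hN₁ N hN).trans ?_⟩
  have hcls : ((w + 2 * j : ℕ) : ZMod m) = ((ρ : ℕ) : ZMod m) := by
    rw [hj]
    push_cast
    rw [ZMod.natCast_self]
    ring
  rw [← hw, hcls]
  have hsub : ((Finset.Icc 1 N).filter (fun t : ℕ =>
        0 < a * (t : ℤ) ^ 2 + b * t + c ∧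
        (ArithmeticFunction.cardFactors (a * (t : ℤ) ^ 2 + b * t + c).natAbs : ℝ) ≤ C / ε ∧
        ((ArithmeticFunction.cardFactors (a * (t : ℤ) ^ 2 + b * t + c).natAbs : ℕ) : ZMod m)
          = ((ρ : ℕ) : ZMod m))) ⊆ ((Finset.Icc 1 N).filter (fun t : ℕ =>
        0 < a * (t : ℤ) ^ 2 + b * t + c ∧
        (ArithmeticFunction.cardFactors (a * (t : ℤ) ^ 2 + b * t + c).natAbs : ℝ) ≤ C / ε ∧
        ArithmeticFunction.cardFactors (a * (t : ℤ) ^ 2 + b * t + c).natAbs ≡ ρ [MOD m])) := by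
    intro t ht
    rw [Finset.mem_filter] at ht ⊢
    exact ⟨ht.1, ht.2.1, ht.2.2.1, (ZMod.natCast_eq_natCast_iff _ _ _).1 ht.2.2.2⟩
  exact_mod_cast Finset.card_le_card hsub

end Pool.Agent.MP_a17b09_nt.OM
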