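import Pool.Agent.Lib.MP_a17b09_nt.OE.Stmts2
import Pool.Agent.Lib.QuadThree.PrimesDyadic

/-!
Lower bound for the number of primes `q ≡ κ mod K` in dyadic intervals.
-/

set_option autoImplicit false

namespace Pool.Agent.MP_a17b09_nt.OM

/-- lower bound for the number of primes `q ≡ κ mod K` in `(2^e, 2^(e+1)]` -/
theorem QC_lower (K κ : ℕ) (hK : 0 < K) (hκ : κ.Coprime K) : ∃ c : ℝ, 0 < c ∧ ∃ e0 : ℕ, 1 ≤ e0 ∧ ∀ e : ℕ, e0 ≤ e →
    c * 2 ^ e / e ≤ ((QC K κ e).card : ℝ) := by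
  obtain ⟨x0, hx0, h⟩ := Pool.Agent.Lib.QuadThree.primes_dyadic K hK κ hκ
  refine ⟨1 / (2 * K), by positivity, x0, by omega, fun e he => ?_⟩
  have h1 : x0 ≤ 2 ^ e := by
    have := Nat.lt_two_pow_self (n := e)
    omega
  have h2 := h (2 ^ e) h1
  have h3 : (Finset.Ioc (2 ^ e) (2 * 2 ^ e)).filter (fun p => p.Prime ∧ p ≡ κ [MOD K]) = QC K κ e := by
    unfold QC
    rw [pow_succ, mul_comm 2 (2 ^ e)]
  rw [h3] at h2
  refine le_trans ?_ h2
  have he0 : 0 < e := by omega
  have hφ : (0 : ℝ) < (Nat.totient K : ℝ) := by exact_mod_cast Nat.totient_pos.2 hK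
  have hφK : (Nat.totient K : ℝ) ≤ K := by exact_mod_cast Nat.totient_le K
  have hlog : Real.log ((2 ^ e : ℕ) : ℝ) = e * Real.log 2 := by
    push_cast
    rw [Real.log_pow]
  rw [hlog]
  have hl2 : Real.log 2 ≤ 1 := by
    have := Real.log_two_lt_d9
    linarith
  have hl0 : 0 < Real.log 2 := Real.log_pos (by norm_num)
  have he' : (0 : ℝ) < e := by exact_mod_cast he0
  have hK' : (0 : ℝ) < K := by exact_mod_cast hK
  push_cast
  rw [div_mul_eq_mul_div, one_mul, div_div]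
  apply div_le_div_of_nonneg_left (by positivity) (by positivity)
  calc 2 * (Nat.totient K : ℝ) * (e * Real.log 2) ≤ 2 * (K : ℝ) * (e * 1) := by
        apply mul_le_mul _ _ (by positivity) (by positivity)
        · linarith
        · exact mul_le_mul_of_nonneg_left hl2 he'.le
    _ = 2 * K * e := by ring

end Pool.Agent.MP_a17b09_nt.OM
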