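import Pool.Agent.Lib.MP_a17b09_nt.OM.Proj
import Pool.Agent.Lib.MP_a17b09_nt.OM.MinorOp
import Pool.Agent.Lib.MP_a17b09_nt.OM.GNS

/-!
Splitting vectors, with the orthogonal projection as a limit of averages.
-/

set_option autoImplicit false

open Filter Topology

namespace Pool.Agent.MP_a17b09_nt.OM

section

variable {H : Type} [NormedAddCommGroup H] [InnerProductSpace ℂ H] [CompleteSpace H]

theorem decomp2 (U : H ≃ₗᵢ[ℂ] H) (K1 : ℕ) (hK1 : 0 < K1) (ε : ℝ) (hε : 0 < ε)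
    {α : Type} [Finite α] (v : α → H) :
    ∃ K : ℕ, 0 < K ∧ K1 ∣ K ∧ ∃ P : H →L[ℂ] H, (∀ w, (U ^ K) (P w) = P w) ∧
      (∀ w, (U ^ K) w = w → P w = w) ∧ (∀ w, ‖P w‖ ≤ ‖w‖) ∧
      (∀ u w, inner ℂ (P u) w = inner ℂ u (P w)) ∧
      ∀ a, ∃ w2 w3 : H, v a = P (v a) + w2 + w3 ∧ ‖w2‖ ≤ ε ∧
        ∀ t : ℕ, 0 < t → ∀ z : H, (U ^ t) z = z → inner ℂ z w3 = 0 := by
  classical
  set V : ℕ → Submodule ℂ H := fun i => fixS U (K1 * i.factorial) with hV
  have hcl : ∀ i, IsClosed ((V i : Submodule ℂ H) : Set H) := fun i => isClosed_fixS U _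
  have hpr : ∀ i, (V i).HasOrthogonalProjection := fun i => by
    have : CompleteSpace (V i) := (hcl i).completeSpace_coe
    infer_instance
  have hpr2 : (⨆ i, V i).topologicalClosure.HasOrthogonalProjection := by
    have : CompleteSpace ((⨆ i, V i).topologicalClosure) :=
      (Submodule.isClosed_topologicalClosure _).completeSpace_coe
    infer_instance
  have hmono : Monotone V := by
    intro i j hij
    exact fixS_mono U (Nat.mul_dvd_mul_left _ (Nat.factorial_dvd_factorial hij))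
  set W := (⨆ i, V i).topologicalClosure with hW
  have htend : ∀ a, Tendsto (fun i => (V i).starProjection (v a)) atTop
      (𝓝 (W.starProjection (v a))) := fun a =>
    Submodule.starProjection_tendsto_closure_iSup V hmono (v a)
  have hev : ∀ a, ∀ᶠ i in atTop, ‖W.starProjection (v a) - (V i).starProjection (v a)‖ ≤ ε := by
    intro a
    have h1 := (htend a)
    rw [Metric.tendsto_atTop] at h1
    obtain ⟨N, hN⟩ := h1 ε hε
    rw [eventually_atTop]
    refine ⟨N, fun i hi => ?_⟩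
    have h2 := hN i hi
    rw [dist_comm, dist_eq_norm] at h2
    exact h2.le
  have hev2 := eventually_all.2 hev
  obtain ⟨i, hi⟩ := hev2.exists
  refine ⟨K1 * i.factorial, by positivity, Dvd.intro _ rfl, (V i).starProjection, ?_, ?_, ?_, ?_, ?_⟩
  · intro w
    exact (V i).starProjection_apply_mem w
  · intro w hw
    exact Submodule.starProjection_eq_self_iff.2 hw
  · intro w
    exact Submodule.norm_starProjection_apply_le _ w
  · intro u w
    exact Submodule.inner_starProjection_left_eq_right _ u w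
  · intro a
    refine ⟨W.starProjection (v a) - (V i).starProjection (v a), v a - W.starProjection (v a),
      by abel, hi a, ?_⟩
    intro t ht z hz
    have hzW : z ∈ W := by
      apply Submodule.le_topologicalClosure
      have h1 : z ∈ V t := by
        apply fixS_mono U (t := t) _ hz
        exact (Nat.dvd_factorial ht le_rfl).mul_left K1
      exact (le_iSup V t) h1
    exact Submodule.sub_starProjection_mem_orthogonal (K := W) (v a) z hzW

theorem avg_tendsto (U : H ≃ₗᵢ[ℂ] H) (K : ℕ) (P : H →L[ℂ] H) (h1 : ∀ w, (U ^ K) (P w) = P w)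
    (h2 : ∀ w, (U ^ K) w = w → P w = w) (h3 : ∀ u w, inner ℂ (P u) w = inner ℂ u (P w)) (w : H) :
    Tendsto (fun n : ℕ => ‖P w - ((n : ℂ))⁻¹ • ∑ i ∈ Finset.range n, (U ^ (K * i)) w‖) atTop
      (𝓝 0) := by
  set a : H →L[ℂ] H := ((U ^ K).toContinuousLinearEquiv : H →L[ℂ] H) with ha
  have hav : ∀ v, a v = (U ^ K) v := fun v => rfl
  have han : ‖a‖ ≤ 1 := by
    apply ContinuousLinearMap.opNorm_le_bound _ zero_le_one
    intro v
    rw [hav, one_mul, LinearIsometryEquiv.norm_map]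
  have hpow : ∀ i : ℕ, ∀ v, (a ^ i) v = (U ^ (K * i)) v := by
    intro i v
    induction i with
    | zero => simp
    | succ i ih =>
      rw [pow_succ', mul_add, mul_one, add_comm (K * i) K, pow_add]
      show a ((a ^ i) v) = (U ^ K) ((U ^ (K * i)) v)
      rw [ih]
      rfl
  have h4 : ∀ v : H, a v = v → inner ℂ v (w - P w) = 0 := by
    intro v hv
    rw [inner_sub_right, ← h3, h2 v hv, sub_self]
  have h5 := erg a han (w - P w) h4
  refine h5.congr' ?_
  filter_upwards [eventually_gt_atTop 0] with n hn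
  have hn0 : (n : ℂ) ≠ 0 := by exact_mod_cast hn.ne'
  have h6 : ∀ i, (a ^ i) (w - P w) = (U ^ (K * i)) w - P w := by
    intro i
    rw [map_sub, hpow, hpow, fix_mul (h1 w) i]
  rw [Finset.sum_congr rfl fun i _ => h6 i, Finset.sum_sub_distrib, Finset.sum_const,
    Finset.card_range, smul_sub, ← Nat.cast_smul_eq_nsmul ℂ, smul_smul, inv_mul_cancel₀ hn0,
    one_smul, norm_sub_rev]

end

/-- averages along multiples of `K` -/
noncomputable def avgf (K n : ℕ) (f : ℤ → ℝ) (x : ℤ) : ℝ :=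
  (n : ℝ)⁻¹ * ∑ i ∈ Finset.range n, f (x + ((K * i : ℕ) : ℤ))

theorem avgf_abs (K n : ℕ) (f : ℤ → ℝ) (C : ℝ) (hC : 0 ≤ C) (hf : ∀ x, |f x| ≤ C) (x : ℤ) :
    |avgf K n f x| ≤ C := by
  unfold avgf
  rw [abs_mul, abs_inv, abs_of_nonneg (Nat.cast_nonneg n)]
  rcases Nat.eq_zero_or_pos n with rfl | hn
  · simpa using hC
  · have hn0 : (0 : ℝ) < n := by exact_mod_cast hn
    rw [inv_mul_le_iff₀ hn0]
    refine (Finset.abs_sum_le_sum_abs _ _).trans ?_
    refine (Finset.sum_le_sum fun i _ => hf _).trans ?_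
    rw [Finset.sum_const, Finset.card_range, nsmul_eq_mul]

theorem avgf_bdd (K n : ℕ) {f : ℤ → ℝ} (hf : Bdd f) : Bdd (avgf K n f) := by
  obtain ⟨C, hC⟩ := hf
  have hC0 : 0 ≤ C := (abs_nonneg _).trans (hC 0)
  exact ⟨C, avgf_abs K n f C hC0 hC⟩

theorem avgf_mul (K n : ℕ) (w f : ℤ → ℝ) (hw : ∀ x : ℤ, ∀ i : ℕ, w (x + ((K * i : ℕ) : ℤ)) = w x)
    (x : ℤ) : avgf K n (fun x => w x * f x) x = w x * avgf K n f x := by
  unfold avgf
  simp only [hw]
  rw [← Finset.mul_sum]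
  ring

theorem ι_avgf (M : Mean) (K n : ℕ) {f : ℤ → ℝ} (hf : Bdd f) :
    HS.ι M (avgf K n f) = ((n : ℂ))⁻¹ • ∑ i ∈ Finset.range n, (HS.U M ^ (K * i)) (HS.ι M f) := by
  have h1 : ∀ i, (HS.U M ^ (K * i)) (HS.ι M f) = HS.ι M (fun x => f (x + ((K * i : ℕ) : ℤ))) := by
    intro i
    rw [HS.U_pow, HS.shC_ι M _ hf]
  rw [Finset.sum_congr rfl fun i _ => h1 i, ← HS.ι_sum M _ _ fun i _ => hf.comp_add _]
  unfold avgf
  rw [HS.ι_smul M _ (Bdd.sum _ _ fun i _ => hf.comp_add _)]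
  congr 1
  push_cast
  rfl

theorem avg_approx (M : Mean) (K : ℕ) (P : HS M →L[ℂ] HS M) (h1 : ∀ w, (HS.U M ^ K) (P w) = P w)
    (h2 : ∀ w, (HS.U M ^ K) w = w → P w = w) (h3 : ∀ u w, inner ℂ (P u) w = inner ℂ u (P w))
    {f : ℤ → ℝ} (hf : Bdd f) :
    Tendsto (fun n : ℕ => ‖P (HS.ι M f) - HS.ι M (avgf K n f)‖) atTop (𝓝 0) := by
  have h := avg_tendsto (HS.U M) K P h1 h2 h3 (HS.ι M f)
  refine h.congr fun n => ?_
  rw [ι_avgf M K n hf]

end Pool.Agent.MP_a17b09_nt.OM
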