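import Pool.Agent.Lib.MP_a17b09_nt.OE.CardC
import Pool.Agent.Lib.MP_a17b09_nt.OE.TotalC
import Pool.Agent.Lib.MP_a17b09_nt.OM.CTmain

/-!
If a colouring avoids the pairs, then the structured bilinear forms are small.
-/

set_option autoImplicit false

open Filter Topology

namespace Pool.Agent.MP_a17b09_nt.OM

theorem main_small (hD : StDecoupleC) (hMi : StMinorC) (m : ℕ) (hm0 : 0 < m) (K0 κ R d0 : ℕ)
    (hR : 0 < R) (hd0 : 0 < d0) (y0 : ℤ) (c : ZMod m) (χ : ℤ → ZMod m) (r : ℕ → ℤ) (X0 : ℤ)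
    (M : Mean) (K : ℕ) (hK : 0 < K) (hK0K : K0 ∣ K) (hκ : κ.Coprime K) (δ : ℝ) (hδ0 : 0 < δ)
    (Pj : HS M →L[ℂ] HS M) (hPfix : ∀ w, (HS.U M ^ K) (Pj w) = Pj w) (hPn : ∀ w, ‖Pj w‖ ≤ ‖w‖)
    (w2 w3 : ZMod m → HS M)
    (hdec1 : ∀ a, HS.ι M (col χ a) = Pj (HS.ι M (col χ a)) + w2 a + w3 a)
    (hdec2 : ∀ a, ‖w2 a‖ ≤ δ / (2 * R))
    (hdec3 : ∀ a, ∀ t : ℕ, 0 < t → ∀ z : HS M, (HS.U M ^ t) z = z → inner ℂ z (w3 a) = 0)
    (hno : ∀ (y : ℤ) (k : ℕ), X0 ≤ y → 0 < k → Squarefree k → k ≡ κ [MOD K0] →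
      (∀ p : ℕ, p.Prime → p ∣ k → (p ≡ 1 [MOD K0] ∨ p ≡ κ [MOD K0]) ∧ (p : ℤ) ∣ y - r p) →
      (R : ℤ) ∣ y - y0 →
      χ y + χ (y + ((d0 * k : ℕ) : ℤ)) ≠
        c + 2 * ((ArithmeticFunction.cardFactors k : ℕ) : ZMod m)) :
    ∀ j ∈ Finset.range m, ∀ a : ZMod m,
      (inner ℂ (HS.ι M (fun x => wt R y0 x * col χ a x)) (HS.shC M ((d0 * κ : ℕ) : ℤ)
        (Pj (HS.ι M (col χ (c + 2 * ((j : ZMod m) + 1) - a)))))).re ≤ 4 * δ := by
  classical
  have : NeZero m := ⟨hm0.ne'⟩
  have hmR : (0 : ℝ) < m := by exact_mod_cast hm0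
  have hRR : (0 : ℝ) < R := by exact_mod_cast hR
  -- the sets of primes
  obtain ⟨L, hL0, hL⟩ := exists_L m (min ((δ / R) ^ 2) 3) (by positivity)
  obtain ⟨P, hP, hd, hLs⟩ := exists_sets K hK L 0
  have hPp : ∀ i, ∀ p ∈ P i, p.Prime := fun i p hp => (hP i p hp).1
  have hP1 : ∀ i, ∀ p ∈ P i, p ≡ 1 [MOD K] := fun i p hp => (hP i p hp).2.1
  set T : ℝ := ∑ j ∈ Finset.range m, cw P j * ((tup P j).card : ℝ) + 1 with hT
  have hTj : ∀ j ∈ Finset.range m, cw P j * ((tup P j).card : ℝ) ≤ T := by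
    intro j hj
    have := Finset.single_le_sum (f := fun j => cw P j * ((tup P j).card : ℝ))
      (fun i _ => mul_nonneg (cw_nonneg P i) (Nat.cast_nonneg _)) hj
    rw [hT]
    linarith
  have hT0 : 0 < T := by
    have : 0 ≤ ∑ j ∈ Finset.range m, cw P j * ((tup P j).card : ℝ) :=
      Finset.sum_nonneg fun i _ => mul_nonneg (cw_nonneg P i) (Nat.cast_nonneg _)
    rw [hT]; linarith
  -- the minor arcs
  have hev1 : ∀ᶠ e in atTop, ∀ j ∈ Finset.range m, ∀ p ∈ tup P j, ∀ a : ZMod m,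
      (1 / ((QC K κ e).card : ℝ)) * ‖∑ q ∈ QC K κ e, (HS.U M ^ (d0 * sp p * q)) (w3 a)‖ ≤
        δ / (R * T) := by
    rw [Filter.eventually_all_finset]
    intro j _
    rw [Filter.eventually_all_finset]
    intro p hp
    rw [Filter.eventually_all]
    intro a
    have hsp : 0 < sp p := by
      unfold sp
      exact Finset.prod_pos fun i _ => (hPp _ _ (mem_tup.1 hp i)).pos
    have h1 := hMi (HS M) (HS.U M) (w3 a) (fun t ht z hz => hdec3 a t ht z hz) K κ hK hκ (d0 * sp p)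
      (by positivity)
    exact h1.eventually_le_const (by positivity)
  obtain ⟨c1, hc1, e0, he0, hQlow⟩ := QC_lower K κ hK hκ
  obtain ⟨E1, hE1⟩ := eventually_atTop.1 hev1
  -- alphabets
  have hModpos : 0 < Mod P m := by
    unfold Mod
    exact Finset.prod_pos fun i _ => Finset.prod_pos fun p hp => (hPp i p hp).pos
  set N : ℕ := R * Mod P m with hN
  have hN0 : 0 < N := by positivity
  have : NeZero N := ⟨hN0.ne'⟩
  have hdvdN : ∀ j ∈ Finset.range m, ∀ p ∈ tup P j, ∀ i, (p i : ℤ) ∣ (N : ℤ) := by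
    intro j hj p hp i
    apply Int.natCast_dvd_natCast.2
    apply Dvd.dvd.mul_left
    exact dvd_Mod P (lt_trans i.2 (Finset.mem_range.1 hj)) (mem_tup.1 hp i)
  have hRN : (R : ℤ) ∣ (N : ℤ) := Int.natCast_dvd_natCast.2 (Dvd.intro _ rfl)
  have hle : ∀ j ∈ Finset.range m, ∀ p ∈ tup P j, ∀ i, p i ≤ Mod P m := by
    intro j hj p hp i
    exact Nat.le_of_dvd hModpos (dvd_Mod P (lt_trans i.2 (Finset.mem_range.1 hj)) (mem_tup.1 hp i))
  have hspN : ∀ j ∈ Finset.range m, ∀ p ∈ tup P j, sp p ≤ (Mod P m) ^ m := by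
    intro j hj p hp
    unfold sp
    calc ∏ i, p i ≤ ∏ _i : Fin j, Mod P m := Finset.prod_le_prod' fun i _ => hle j hj p hp i
      _ = (Mod P m) ^ j := by rw [Finset.prod_const, Finset.card_univ, Fintype.card_fin]
      _ ≤ (Mod P m) ^ m := Nat.pow_le_pow_right hModpos (Finset.mem_range.1 hj).le
  -- decoupling
  obtain ⟨e, he, hdecp⟩ := hD M (ZMod m × ZMod N) (phi χ N) K κ hK hκ (d0 * (Mod P m) ^ m)
    (δ / (R * T)) (by positivity) (max (max E1 e0) (Mod P m))
  have heE1 : E1 ≤ e := by omega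
  have hee0 : e0 ≤ e := by omega
  have heM : Mod P m ≤ e := by omega
  have hQpos : 0 < (QC K κ e).card := by
    have h1 := hQlow e hee0
    have h2 : 0 < c1 * 2 ^ e / e := by
      have : (0 : ℝ) < e := by
        have : 0 < e := by omega
        exact_mod_cast this
      positivity
    have h3 : (0 : ℝ) < ((QC K κ e).card : ℝ) := lt_of_lt_of_le h2 h1
    exact_mod_cast h3
  have hqbig : ∀ q ∈ QC K κ e, Mod P m < q := by
    intro q hq
    have h1 := (mem_QC.1 hq).1.1
    have h2 := Nat.lt_two_pow_self (n := e)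
    omega
  set n : ℝ := ((QC K κ e).card : ℝ) with hn
  have hn0 : 0 < n := by rw [hn]; exact_mod_cast hQpos
  -- upper bound for the pair probabilities
  have hub : ∀ j ∈ Finset.range m, ∀ p ∈ tup P j, ∀ a : ZMod m,
      ∑ q ∈ QC K κ e, M.E (fun x => Psi r R y0 a (c + 2 * ((j : ZMod m) + 1) - a) p (phi χ N x)
        (phi χ N (x + ((d0 * sp p * q : ℕ) : ℤ)))) ≤ (δ / (R * T)) * n := by
    intro j hj p hp a
    have h1 := hdecp r (fun _ => d0 * sp p)
      (fun _ => Psi r R y0 a (c + 2 * ((j : ZMod m) + 1) - a) p)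
      (fun _ => Nat.mul_le_mul_left _ (hspN j hj p hp)) (fun _ α β => Psi_mem r R y0 _ _ p α β)
    refine le_trans (Finset.sum_le_sum fun q hq => ?_) h1
    have hqp := (mem_QC.1 hq).2.1
    have hzero : M.E (fun x => if (q : ℤ) ∣ x - r q then
          (q : ℝ) * Psi r R y0 a (c + 2 * ((j : ZMod m) + 1) - a) p (phi χ N x)
        (phi χ N (x + ((d0 * sp p * q : ℕ) : ℤ))) else 0) = 0 := by
      apply M.null
      · refine ⟨q, fun x => ?_⟩
        have hb := Psi_mem (m := m) (N := N) r R y0 a (c + 2 * ((j : ZMod m) + 1) - a) p (phi χ N x)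
          (phi χ N (x + ((d0 * sp p * q : ℕ) : ℤ)))
        beta_reduce
        split_ifs
        · rw [abs_mul, abs_of_nonneg (Nat.cast_nonneg q), abs_of_nonneg hb.1]
          exact mul_le_of_le_one_right (Nat.cast_nonneg q) hb.2
        · rw [abs_zero]; exact Nat.cast_nonneg q
      · refine ⟨X0, fun x hx => ?_⟩
        split_ifs with hqx
        · rw [Psi_phi χ r R y0 _ _ p (hdvdN j hj p hp) hRN, if_neg, mul_zero]
          rintro ⟨ha, hb, hpx, hRx⟩
          have hpi : ∀ i, (p i).Prime := fun i => hPp _ _ (mem_tup.1 hp i)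
          have hqne : ∀ i, q ≠ p i := by
            intro i hqi
            have h2 := hqbig q hq
            have h3 := hle j hj p hp i
            omega
          have hcop : Nat.Coprime (sp p) q := by
            unfold sp
            apply Nat.Coprime.prod_left
            intro i _
            rw [Nat.coprime_primes (hpi i) hqp]
            exact fun h => hqne i h.symm
          have hsf : Squarefree (sp p * q) := by
            rw [Nat.squarefree_mul hcop]
            refine ⟨squarefree_sp p hpi ?_, hqp.squarefree⟩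
            intro i i' hii h
            have h2 : (i : ℕ) ≠ (i' : ℕ) := fun h' => hii (Fin.ext h')
            have h3 := mem_tup.1 hp i'
            rw [← h] at h3
            exact Finset.disjoint_left.1 (hd _ _ h2) (mem_tup.1 hp i) h3
          have hsp0 : sp p ≠ 0 := by
            unfold sp
            exact Finset.prod_ne_zero_iff.2 fun i _ => (hpi i).ne_zero
          have hkκ : sp p * q ≡ κ [MOD K0] := by
            have h2 := ((sp_modEq hP1 hp).mul (mem_QC.1 hq).2.2).of_dvd hK0K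
            rwa [one_mul] at h2
          apply hno x (sp p * q) hx (Nat.pos_of_ne_zero (mul_ne_zero hsp0 hqp.ne_zero)) hsf hkκ _ hRx
          · have e1 : ((d0 * (sp p * q) : ℕ) : ℤ) = ((d0 * sp p * q : ℕ) : ℤ) := by
              rw [mul_assoc]
            rw [e1, ha, hb, ArithmeticFunction.cardFactors_mul hsp0 hqp.ne_zero, Omega_prod p hpi,
              ArithmeticFunction.cardFactors_apply_prime hqp]
            push_cast
            ring
          · intro p' hp' hdiv
            rcases (Nat.Prime.dvd_mul hp').1 hdiv with h2 | h2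
            · unfold sp at h2
              obtain ⟨i, _, hi⟩ := (hp'.prime.dvd_finsetProd_iff _).1 h2
              have h3 := (Nat.prime_dvd_prime_iff_eq hp' (hpi i)).1 hi
              rw [h3]
              exact ⟨Or.inl ((hP1 _ _ (mem_tup.1 hp i)).of_dvd hK0K), hpx i⟩
            · have h3 := (Nat.prime_dvd_prime_iff_eq hp' hqp).1 h2
              rw [h3]
              exact ⟨Or.inr (((mem_QC.1 hq).2.2).of_dvd hK0K), hqx⟩
        · rfl
    rw [hzero, zero_sub, abs_neg]
    exact le_abs_self _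
  -- the main terms are small
  intro j hj a
  set b : ZMod m := c + 2 * ((j : ZMod m) + 1) - a with hb
  have h1 := form_totalC M r P hPp hd hP1 hL0 hLs j (g := fun x => wt R y0 x * col χ a x)
    (R := R) hRR.le (wtcol_abs χ a R y0) (F := col χ b) (col_abs χ b) d0 e hQpos
    (Pj (HS.ι M (col χ b))) (w2 b) (w3 b) (hdec1 b) (hPfix _)
  have hjm : j ≤ m := (Finset.mem_range.1 hj).le
  have hLj := hL j hjm
  -- error terms
  have hv : ‖HS.ι M (col χ b)‖ ≤ 1 := HS.norm_ι_le M zero_le_one (col_abs χ b)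
  have hv1 : ‖Pj (HS.ι M (col χ b))‖ ≤ 1 := (hPn _).trans hv
  have he1 : (R : ℝ) * √((1 + 1 / L) ^ j - 1) * ‖Pj (HS.ι M (col χ b))‖ ≤ δ := by
    have h2 : √((1 + 1 / L) ^ j - 1) ≤ δ / R := by
      rw [← Real.sqrt_sq (by positivity : 0 ≤ δ / R)]
      exact Real.sqrt_le_sqrt (hLj.trans (min_le_left _ _))
    calc (R : ℝ) * √((1 + 1 / L) ^ j - 1) * ‖Pj (HS.ι M (col χ b))‖ ≤ R * (δ / R) * 1 := by
          apply mul_le_mul _ hv1 (norm_nonneg _) (by positivity)
          exact mul_le_mul_of_nonneg_left h2 hRR.le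
      _ = δ := al1 _ _ hRR
  have he2 : (R : ℝ) * √((1 + 1 / L) ^ j) * ‖w2 b‖ ≤ δ := by
    have h2 : √((1 + 1 / L) ^ j) ≤ 2 := by
      rw [show (2 : ℝ) = √4 by rw [show (4 : ℝ) = 2 ^ 2 by norm_num]; simp]
      apply Real.sqrt_le_sqrt
      have := hLj.trans (min_le_right _ _)
      linarith
    calc (R : ℝ) * √((1 + 1 / L) ^ j) * ‖w2 b‖ ≤ R * 2 * (δ / (2 * R)) := by
          apply mul_le_mul _ (hdec2 b) (norm_nonneg _) (by positivity)
          exact mul_le_mul_of_nonneg_left h2 hRR.le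
      _ = δ := al2 _ _ hRR
  have he3 : ∑ p ∈ tup P j, cw P j * (R * ((1 / n) *
      ‖∑ q ∈ QC K κ e, (HS.U M ^ (d0 * sp p * q)) (w3 b)‖)) ≤ δ := by
    calc ∑ p ∈ tup P j, cw P j * (R * ((1 / n) *
          ‖∑ q ∈ QC K κ e, (HS.U M ^ (d0 * sp p * q)) (w3 b)‖)) ≤
          ∑ p ∈ tup P j, cw P j * (R * (δ / (R * T))) := by
            apply Finset.sum_le_sum
            intro p hp
            apply mul_le_mul_of_nonneg_left _ (cw_nonneg P j)
            exact mul_le_mul_of_nonneg_left (hE1 e heE1 j hj p hp b) hRR.le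
      _ = (cw P j * ((tup P j).card : ℝ)) * (δ / T) := by
          rw [Finset.sum_const, nsmul_eq_mul]; exact al3 _ _ _ _ _ hRR hT0
      _ ≤ T * (δ / T) := mul_le_mul_of_nonneg_right (hTj j hj) (by positivity)
      _ = δ := al4 _ _ hT0
  -- the averaged form is small
  have hform : (1 / n) * ∑ q ∈ QC K κ e, ∑ p ∈ tup P j, cw P j *
      M.E (fun x => indp r p x * (wt R y0 x * col χ a x) *
        col χ b (x + ((d0 * sp p * q : ℕ) : ℤ))) ≤ δ := by
    have h2 : ∀ p ∈ tup P j, ∀ q ∈ QC K κ e,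
        M.E (fun x => indp r p x * (wt R y0 x * col χ a x) *
        col χ b (x + ((d0 * sp p * q : ℕ) : ℤ))) =
        R * M.E (fun x => Psi r R y0 a b p (phi χ N x)
          (phi χ N (x + ((d0 * sp p * q : ℕ) : ℤ)))) := by
      intro p hp q _
      rw [← M.smul]
      · congr 1
        funext x
        exact Psi_form χ r R y0 a b p (hdvdN j hj p hp) hRN _ _
      · exact ⟨1, fun x => by
          have := Psi_mem (m := m) (N := N) r R y0 a b p (phi χ N x)
            (phi χ N (x + ((d0 * sp p * q : ℕ) : ℤ)))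
          rw [abs_of_nonneg this.1]; exact this.2⟩
    rw [Finset.sum_comm]
    have h3 : ∑ p ∈ tup P j, ∑ q ∈ QC K κ e, cw P j *
        M.E (fun x => indp r p x * (wt R y0 x * col χ a x) *
        col χ b (x + ((d0 * sp p * q : ℕ) : ℤ))) ≤
        ∑ p ∈ tup P j, cw P j * (R * ((δ / (R * T)) * n)) := by
      apply Finset.sum_le_sum
      intro p hp
      rw [← Finset.mul_sum]
      apply mul_le_mul_of_nonneg_left _ (cw_nonneg P j)
      rw [Finset.sum_congr rfl (h2 p hp), ← Finset.mul_sum]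
      exact mul_le_mul_of_nonneg_left (hub j hj p hp a) hRR.le
    calc (1 / n) * ∑ p ∈ tup P j, ∑ q ∈ QC K κ e, cw P j *
        M.E (fun x => indp r p x * (wt R y0 x * col χ a x) *
        col χ b (x + ((d0 * sp p * q : ℕ) : ℤ))) ≤
        (1 / n) * ∑ p ∈ tup P j, cw P j * (R * ((δ / (R * T)) * n)) :=
          mul_le_mul_of_nonneg_left h3 (one_div_nonneg.2 hn0.le)
      _ = (cw P j * ((tup P j).card : ℝ)) * (δ / T) := by
          rw [Finset.sum_const, nsmul_eq_mul]; exact al5 _ _ _ _ _ _ hRR hT0 hn0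
      _ ≤ T * (δ / T) := mul_le_mul_of_nonneg_right (hTj j hj) (by positivity)
      _ = δ := al4 _ _ hT0
  have h4 := (Complex.abs_re_le_norm _).trans (h1.trans (add_le_add (add_le_add he1 he2) he3))
  rw [Complex.sub_re, Complex.ofReal_re] at h4
  have h5 := (abs_le.1 h4).1
  linarith

end Pool.Agent.MP_a17b09_nt.OM
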